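import Pool.Agent.L5helper35.CN.Comp

/-!
# Composition of comparator circuits
-/

namespace Pool.Agent.L5helper35.CN

open Finset

variable {I : Type}

/-- The function `f` is computed by a circuit with at most `t` NOT gates and `S` wires. -/
def Cmp (t S : ℕ) (f : (I → Bool) → Bool) : Prop :=
  ∃ N : Circuit I, negs N.gates ≤ t ∧ N.wires ≤ S ∧ ∀ x, N.value x = f x

theorem Cmp.mono {t S t' S' : ℕ} {f : (I → Bool) → Bool} (h : Cmp t S f) (ht : t ≤ t')
    (hS : S ≤ S') : Cmp t' S' f := by
  obtain ⟨N, h1, h2, h3⟩ := h
  exact ⟨N, h1.trans ht, h2.trans hS, h3⟩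

/-- wires indexed by any finite type -/
theorem cmp_of_type {W : Type} [Fintype W] [DecidableEq W] (lab : W → I ⊕ Bool)
    (G : List (Gate W)) (o : W) :
    Cmp (negs G) (Fintype.card W) (fun x => run G (fun w => bit x (lab w)) o) := by
  let φ : W ≃ Fin (Fintype.card W) := Fintype.equivFin W
  refine ⟨⟨Fintype.card W, fun w => lab (φ.symm w), G.map (Gate.map φ), φ o⟩, ?_, le_rfl, ?_⟩
  · exact (negs_map φ G).le
  · intro x
    unfold Circuit.value
    dsimp only
    rw [(run_map φ φ.injective G _).1 o]
    simp only [Equiv.symm_apply_apply]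

/-- running circuits in disjoint sets of wires -/
theorem run_parallel {W : Type} [DecidableEq W] {V : W → Type} [∀ w, DecidableEq (V w)]
    (G : ∀ w, List (Gate (V w))) (ws : List W) : ∀ v : (Σ w, V w) → Bool, ws.Nodup →
    (∀ w ∈ ws, ∀ i, run (ws.flatMap fun w => (G w).map (Gate.map fun i => (⟨w, i⟩ : Σ w, V w))) v
      ⟨w, i⟩ = run (G w) (fun i => v ⟨w, i⟩) i) ∧
    (∀ w, w ∉ ws → ∀ i, run (ws.flatMap fun w => (G w).map
      (Gate.map fun i => (⟨w, i⟩ : Σ w, V w))) v ⟨w, i⟩ = v ⟨w, i⟩) := by
  induction ws with
  | nil => intro v _; simp [run]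
  | cons a ws ih =>
    intro v hnd
    rw [List.nodup_cons] at hnd
    have hinj : Function.Injective (fun i : V a => (⟨a, i⟩ : Σ w, V w)) := by
      intro i j h
      simpa using h
    obtain ⟨m1, m2⟩ := run_map (fun i : V a => (⟨a, i⟩ : Σ w, V w)) hinj (G a) v
    obtain ⟨h1, h2⟩ := ih (run ((G a).map (Gate.map fun i => (⟨a, i⟩ : Σ w, V w))) v) hnd.2
    have hoff : ∀ w, w ≠ a → ∀ i : V w,
        run ((G a).map (Gate.map fun i => (⟨a, i⟩ : Σ w, V w))) v ⟨w, i⟩ = v ⟨w, i⟩ := by
      intro w hw i
      apply m2
      intro j h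
      apply hw
      exact (congrArg Sigma.fst h).symm
    rw [List.flatMap_cons, run_append]
    constructor
    · intro w hw i
      rw [List.mem_cons] at hw
      by_cases hwa : w = a
      · subst hwa
        rw [h2 w hnd.1 i]
        exact m1 i
      · have hw' : w ∈ ws := hw.resolve_left hwa
        rw [h1 w hw' i]
        congr 1
        funext j
        exact hoff w hwa j
    · intro w hw i
      rw [List.mem_cons, not_or] at hw
      rw [h2 w hw.2 i]
      exact hoff w hw.1 i

theorem negs_flatMap {W V : Type} (F : W → List (Gate V)) (ws : List W) :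
    negs (ws.flatMap F) = (ws.map fun w => negs (F w)).sum := by
  induction ws with
  | nil => rfl
  | cons a ws ih => rw [List.flatMap_cons, negs_append, ih]; rfl

/-- Circuits in the places of the labels. -/
theorem Cmp.subst {W : Type} [Fintype W] [DecidableEq W] (G : List (Gate W)) (o : W)
    (f : W → (I → Bool) → Bool) (t S : W → ℕ) (h : ∀ w, Cmp (t w) (S w) (f w)) :
    Cmp (∑ w, t w + negs G) (∑ w, S w) (fun x => run G (fun w => f w x) o) := by
  classical
  choose N h1 h2 h3 using h
  let ws : List W := (univ : Finset W).toList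
  have hws : ws.Nodup := nodup_toList _
  let H : List (Gate (Σ w, Fin (N w).wires)) :=
    (ws.flatMap fun w => (N w).gates.map (Gate.map fun i => (⟨w, i⟩ : Σ w, Fin (N w).wires))) ++
      G.map (Gate.map fun w => (⟨w, (N w).out⟩ : Σ w, Fin (N w).wires))
  have hc := cmp_of_type (I := I) (fun a : Σ w, Fin (N w).wires => (N a.1).label a.2) H ⟨o, (N o).out⟩
  have hinj : Function.Injective (fun w => (⟨w, (N w).out⟩ : Σ w, Fin (N w).wires)) := by
    intro a b h
    exact congrArg Sigma.fst h
  have hval : ∀ x, run H (fun a => bit x ((N a.1).label a.2)) ⟨o, (N o).out⟩ =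
      run G (fun w => f w x) o := by
    intro x
    simp only [H]
    rw [run_append, (run_map _ hinj G _).1 o]
    congr 1
    funext w
    rw [(run_parallel (fun w => (N w).gates) ws _ hws).1 w (by simp [ws])]
    rw [← h3 w x]
    rfl
  obtain ⟨N', k1, k2, k3⟩ := hc
  refine ⟨N', ?_, ?_, fun x => ?_⟩
  · refine k1.trans ?_
    simp only [H]
    rw [negs_append, negs_flatMap, negs_map]
    apply Nat.add_le_add_right
    have e : (ws.map fun w => negs ((N w).gates.map (Gate.map fun i =>
        (⟨w, i⟩ : Σ w, Fin (N w).wires)))).sum = ∑ w, negs (N w).gates := by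
      rw [← sum_map_toList]
      congr 1
      apply List.map_congr_left
      intro w _
      exact negs_map _ _
    rw [e]
    exact sum_le_sum fun w _ => h1 w
  · refine k2.trans ?_
    rw [Fintype.card_sigma]
    apply sum_le_sum
    intro w _
    rw [Fintype.card_fin]
    exact h2 w
  · rw [k3 x]
    exact hval x

theorem Cmp.and {t S t' S' : ℕ} {f g : (I → Bool) → Bool} (hf : Cmp t S f) (hg : Cmp t' S' g) :
    Cmp (t + t') (S + S') (fun x => f x && g x) := by
  have h := Cmp.subst (I := I) (W := Bool) [.cmp false true] false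
    (fun b => if b then g else f) (fun b => if b then t' else t) (fun b => if b then S' else S)
    (by intro b; cases b <;> simpa)
  simp only [Fintype.sum_bool, if_true, Bool.false_eq_true, if_false, negs, run, step] at h
  have e : (fun x => f x && g x) = (fun x => f x && g x) := rfl
  refine h.mono (by omega) (by omega)

theorem Cmp.or {t S t' S' : ℕ} {f g : (I → Bool) → Bool} (hf : Cmp t S f) (hg : Cmp t' S' g) :
    Cmp (t + t') (S + S') (fun x => f x || g x) := by
  have h := Cmp.subst (I := I) (W := Bool) [.cmp false true] true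
    (fun b => if b then g else f) (fun b => if b then t' else t) (fun b => if b then S' else S)
    (by intro b; cases b <;> simpa)
  simp only [Fintype.sum_bool, if_true, Bool.false_eq_true, if_false, negs, run, step,
    Bool.true_eq_false] at h
  refine h.mono (by omega) (by omega)

theorem Cmp.not {t S : ℕ} {f : (I → Bool) → Bool} (hf : Cmp t S f) :
    Cmp (t + 1) S (fun x => !f x) := by
  have h := Cmp.subst (I := I) (W := Unit) [.neg ()] () (fun _ => f) (fun _ => t) (fun _ => S)
    (fun _ => hf)
  simp only [univ_unique, sum_const, card_singleton, smul_eq_mul, one_mul, negs, run, step,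
    if_true] at h
  exact h.mono (by omega) (by omega)

theorem cmp_label (l : I ⊕ Bool) : Cmp 0 1 (fun x => bit x l) := by
  have h := cmp_of_type (I := I) (W := Unit) (fun _ => l) [] ()
  simpa [negs, run] using h

theorem Cmp.all {α : Type} (ks : List α) {S : ℕ} (f : α → (I → Bool) → Bool)
    (h : ∀ k ∈ ks, Cmp 0 S (f k)) : Cmp 0 (ks.length * S + 1) (fun x => ks.all fun k => f k x) := by
  induction ks with
  | nil =>
    have := cmp_label (I := I) (.inr true)
    simpa [bit] using this
  | cons a ks ih =>
    have h1 := (h a (by simp)).and (ih fun k hk => h k (by simp [hk]))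
    simp only [List.all_cons, List.length_cons]
    exact h1.mono (by omega) (by rw [add_mul]; omega)

/-- Without NOT gates the function is monotone. -/
theorem Cmp.monotone {S : ℕ} {f : (I → Bool) → Bool} (h : Cmp 0 S f) (x y : I → Bool)
    (hxy : ∀ i, x i = true → y i = true) (hx : f x = true) : f y = true := by
  obtain ⟨N, h1, -, h3⟩ := h
  rw [← h3] at hx ⊢
  refine run_mono N.gates (by omega) _ _ ?_ N.out hx
  intro w
  cases N.label w with
  | inl i => exact hxy i
  | inr b => exact id

end Pool.Agent.L5helper35.CN
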