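import Pool.Agent.L5helper35.CN.Gen

/-!
# Composition of comparator circuits with the nesting of the NOT gates
-/

namespace Pool.Agent.L5helper35.CN

open Finset

section

variable {W V : Type} [DecidableEq W] [DecidableEq V]

/-- the number of NOT gates on the longest path to a wire at the end -/
def drun : List (Gate W) → (W → ℕ) → W → ℕ
  | [], d => d
  | g :: G, d => drun G (dstep g d)

theorem nesting_append (G H : List (Gate W)) : ∀ d,
    nesting (G ++ H) d = max (nesting G d) (nesting H (drun G d)) := by
  induction G with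
  | nil => intro d; simp [nesting, drun]
  | cons g G ih =>
    intro d
    cases g with
    | cmp a b => exact ih _
    | neg a =>
      simp only [List.cons_append, nesting, drun]
      rw [ih, max_assoc]

theorem drun_append (G H : List (Gate W)) : ∀ d, drun (G ++ H) d = drun H (drun G d) := by
  induction G with
  | nil => intro d; rfl
  | cons g G ih => intro d; exact ih _

theorem dstep_map (φ : W → V) (hφ : Function.Injective φ) (g : Gate W) (d : V → ℕ) :
    (fun w => dstep (Gate.map φ g) d (φ w)) = dstep g (fun w => d (φ w)) := by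
  funext w
  cases g with
  | cmp a b => simp [dstep, Gate.map, hφ.eq_iff]
  | neg a => simp [dstep, Gate.map, hφ.eq_iff]

theorem nesting_map (φ : W → V) (hφ : Function.Injective φ) (G : List (Gate W)) :
    ∀ d : V → ℕ, nesting (G.map (Gate.map φ)) d = nesting G (fun w => d (φ w)) := by
  induction G with
  | nil => intro d; rfl
  | cons g G ih =>
    intro d
    cases g with
    | cmp a b =>
      have h1 := ih (dstep (Gate.map φ (.cmp a b)) d)
      rw [dstep_map φ hφ] at h1
      exact h1
    | neg a =>
      have h1 := ih (dstep (Gate.map φ (.neg a)) d)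
      rw [dstep_map φ hφ] at h1
      change max (d (φ a) + 1) (nesting (G.map (Gate.map φ)) (dstep (Gate.map φ (.neg a)) d)) = _
      rw [h1]
      rfl

theorem drun_map (φ : W → V) (hφ : Function.Injective φ) (G : List (Gate W)) : ∀ d : V → ℕ,
    (∀ w, drun (G.map (Gate.map φ)) d (φ w) = drun G (fun w => d (φ w)) w) ∧
    ∀ y, (∀ w, φ w ≠ y) → drun (G.map (Gate.map φ)) d y = d y := by
  induction G with
  | nil => intro d; exact ⟨fun _ => rfl, fun _ _ => rfl⟩
  | cons g G ih =>
    intro d
    obtain ⟨h1, h2⟩ := ih (dstep (Gate.map φ g) d)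
    refine ⟨fun w => ?_, fun y hy => ?_⟩
    · simp only [List.map_cons, drun]
      rw [h1, dstep_map φ hφ]
    · simp only [List.map_cons, drun]
      rw [h2 y hy]
      cases g with
      | cmp a b => simp [dstep, Gate.map, (hy a).symm, (hy b).symm]
      | neg a => simp [dstep, Gate.map, (hy a).symm]

theorem drun_le (G : List (Gate W)) (R : ℕ) : ∀ d : W → ℕ, (∀ w, d w ≤ R) → nesting G d ≤ R →
    ∀ w, drun G d w ≤ R := by
  induction G with
  | nil => intro d hd _ w; exact hd w
  | cons g G ih =>
    intro d hd hG w
    cases g with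
    | cmp a b =>
      refine ih _ (fun w => ?_) hG w
      have ha := hd a
      have hb := hd b
      have hw := hd w
      simp only [dstep]
      split_ifs <;> omega
    | neg a =>
      simp only [nesting] at hG
      refine ih _ (fun w => ?_) ((le_max_right _ _).trans hG) w
      have ha := (le_max_left _ _).trans hG
      have hw := hd w
      simp only [dstep]
      split_ifs <;> omega

theorem nesting_shift (G : List (Gate W)) (R : ℕ) : ∀ d d' : W → ℕ, (∀ w, d w ≤ R + d' w) →
    nesting G d ≤ R + nesting G d' := by
  induction G with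
  | nil => intro d d' _; simp [nesting]
  | cons g G ih =>
    intro d d' h
    cases g with
    | cmp a b =>
      apply ih
      intro w
      have ha := h a
      have hb := h b
      have hw := h w
      simp only [dstep]
      split_ifs <;> omega
    | neg a =>
      have h1 := ih (dstep (.neg a) d) (dstep (.neg a) d') fun w => by
        have ha := h a
        have hw := h w
        simp only [dstep]
        split_ifs <;> omega
      have ha := h a
      simp only [nesting]
      omega

end

theorem nesting_parallel {W : Type} [DecidableEq W] {V : W → Type} [∀ w, DecidableEq (V w)]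
    (G : ∀ w, List (Gate (V w))) (R : ℕ) (ws : List W) : ∀ d : (Σ w, V w) → ℕ, ws.Nodup →
    (∀ w ∈ ws, nesting (G w) (fun i => d ⟨w, i⟩) ≤ R) →
    nesting (ws.flatMap fun w => (G w).map (Gate.map fun i => (⟨w, i⟩ : Σ w, V w))) d ≤ R ∧
    (∀ w ∈ ws, ∀ i, drun (ws.flatMap fun w => (G w).map (Gate.map fun i => (⟨w, i⟩ : Σ w, V w))) d
      ⟨w, i⟩ = drun (G w) (fun i => d ⟨w, i⟩) i) ∧
    (∀ w, w ∉ ws → ∀ i, drun (ws.flatMap fun w => (G w).map
      (Gate.map fun i => (⟨w, i⟩ : Σ w, V w))) d ⟨w, i⟩ = d ⟨w, i⟩) := by
  induction ws with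
  | nil => intro d _ _; simp [nesting, drun]
  | cons a ws ih =>
    intro d hnd hR
    rw [List.nodup_cons] at hnd
    have hinj : Function.Injective (fun i : V a => (⟨a, i⟩ : Σ w, V w)) := by
      intro i j h
      simpa using h
    obtain ⟨m1, m2⟩ := drun_map (fun i : V a => (⟨a, i⟩ : Σ w, V w)) hinj (G a) d
    have hoff : ∀ w, w ≠ a → ∀ i : V w,
        drun ((G a).map (Gate.map fun i => (⟨a, i⟩ : Σ w, V w))) d ⟨w, i⟩ = d ⟨w, i⟩ := by
      intro w hw i
      apply m2
      intro j h
      apply hw
      exact (congrArg Sigma.fst h).symm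
    have hne : ∀ w ∈ ws, w ≠ a := fun w hw h => hnd.1 (h ▸ hw)
    obtain ⟨h0, h1, h2⟩ := ih (drun ((G a).map (Gate.map fun i => (⟨a, i⟩ : Σ w, V w))) d) hnd.2
      (fun w hw => by
        simp only [hoff w (hne w hw)]
        exact hR w (by simp [hw]))
    rw [List.flatMap_cons, nesting_append, drun_append]
    refine ⟨max_le ?_ h0, fun w hw i => ?_, fun w hw i => ?_⟩
    · rw [nesting_map _ hinj]
      exact hR a (by simp)
    · rw [List.mem_cons] at hw
      by_cases hwa : w = a
      · subst hwa
        rw [h2 w hnd.1 i]
        exact m1 i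
      · have hw' : w ∈ ws := hw.resolve_left hwa
        rw [h1 w hw' i]
        congr 1
        funext j
        exact hoff w hwa j
    · rw [List.mem_cons, not_or] at hw
      rw [h2 w hw.2 i]
      exact hoff w hw.1 i

variable {I : Type}

/-- The function `f` is computed by a circuit with nesting at most `r`, at most `t` NOT gates and at
most `S` wires. -/
def CmpN (r t S : ℕ) (f : (I → Bool) → Bool) : Prop :=
  ∃ N : Circuit I, N.nest ≤ r ∧ negs N.gates ≤ t ∧ N.wires ≤ S ∧ ∀ x, N.value x = f x

theorem CmpN.mono {r t S r' t' S' : ℕ} {f : (I → Bool) → Bool} (h : CmpN r t S f) (hr : r ≤ r')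
    (ht : t ≤ t') (hS : S ≤ S') : CmpN r' t' S' f := by
  obtain ⟨N, h0, h1, h2, h3⟩ := h
  exact ⟨N, h0.trans hr, h1.trans ht, h2.trans hS, h3⟩

theorem Cmp.toN {S : ℕ} {f : (I → Bool) → Bool} (h : Cmp 0 S f) : CmpN 0 0 S f := by
  obtain ⟨N, h1, h2, h3⟩ := h
  exact ⟨N, (nesting_zero _ (by omega) _).le, h1, h2, h3⟩

theorem cmpN_of_type {W : Type} [Fintype W] [DecidableEq W] (lab : W → I ⊕ Bool)
    (G : List (Gate W)) (o : W) :
    CmpN (nesting G fun _ => 0) (negs G) (Fintype.card W)
      (fun x => run G (fun w => bit x (lab w)) o) := by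
  let φ : W ≃ Fin (Fintype.card W) := Fintype.equivFin W
  refine ⟨⟨Fintype.card W, fun w => lab (φ.symm w), G.map (Gate.map φ), φ o⟩, ?_, ?_, le_rfl, ?_⟩
  · exact (nesting_map φ φ.injective G _).le
  · exact (negs_map φ G).le
  · intro x
    unfold Circuit.value
    dsimp only
    rw [(run_map φ φ.injective G _).1 o]
    simp only [Equiv.symm_apply_apply]

/-- Circuits in the places of the labels. -/
theorem CmpN.subst {W : Type} [Fintype W] [DecidableEq W] (G : List (Gate W)) (o : W)
    (f : W → (I → Bool) → Bool) (R : ℕ) (t S : W → ℕ) (h : ∀ w, CmpN R (t w) (S w) (f w)) :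
    CmpN (R + nesting G fun _ => 0) (∑ w, t w + negs G) (∑ w, S w)
      (fun x => run G (fun w => f w x) o) := by
  classical
  choose N h0 h1 h2 h3 using h
  let ws : List W := (univ : Finset W).toList
  have hws : ws.Nodup := nodup_toList _
  let H : List (Gate (Σ w, Fin (N w).wires)) :=
    (ws.flatMap fun w => (N w).gates.map (Gate.map fun i => (⟨w, i⟩ : Σ w, Fin (N w).wires))) ++
      G.map (Gate.map fun w => (⟨w, (N w).out⟩ : Σ w, Fin (N w).wires))
  have hc := cmpN_of_type (I := I) (fun a : Σ w, Fin (N w).wires => (N a.1).label a.2) H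
    ⟨o, (N o).out⟩
  have hinj : Function.Injective (fun w => (⟨w, (N w).out⟩ : Σ w, Fin (N w).wires)) := by
    intro a b h
    exact congrArg Sigma.fst h
  have hval : ∀ x, run H (fun a => bit x ((N a.1).label a.2)) ⟨o, (N o).out⟩ =
      run G (fun w => f w x) o := by
    intro x
    simp only [H]
    rw [run_append, (run_map _ hinj G _).1 o]
    congr 1
    funext w
    rw [(run_parallel (fun w => (N w).gates) ws _ hws).1 w (by simp [ws])]
    rw [← h3 w x]
    rfl
  have hnest : nesting H (fun _ => 0) ≤ R + nesting G fun _ => 0 := by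
    obtain ⟨k1, k2, -⟩ := nesting_parallel (fun w => (N w).gates) R ws (fun _ => 0) hws
      (fun w _ => h0 w)
    simp only [H]
    rw [nesting_append, nesting_map _ hinj]
    refine max_le (k1.trans (Nat.le_add_right _ _)) ?_
    apply nesting_shift
    intro w
    rw [k2 w (by simp [ws]), add_zero]
    exact drun_le (N w).gates R (fun _ => 0) (fun _ => Nat.zero_le _) (h0 w) _
  obtain ⟨N', k0, k1, k2, k3⟩ := hc
  refine ⟨N', k0.trans hnest, ?_, ?_, fun x => ?_⟩
  · refine k1.trans ?_
    simp only [H]
    rw [negs_append, negs_flatMap, negs_map]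
    apply Nat.add_le_add_right
    have e : (ws.map fun w => negs ((N w).gates.map (Gate.map fun i =>
        (⟨w, i⟩ : Σ w, Fin (N w).wires)))).sum = ∑ w, negs (N w).gates := by
      rw [← sum_map_toList]
      congr 1
      apply List.map_congr_left
      intro w _
      exact negs_map _ _
    rw [e]
    exact sum_le_sum fun w _ => h1 w
  · refine k2.trans ?_
    rw [Fintype.card_sigma]
    apply sum_le_sum
    intro w _
    rw [Fintype.card_fin]
    exact h2 w
  · rw [k3 x]
    exact hval x

theorem CmpN.and {r t S t' S' : ℕ} {f g : (I → Bool) → Bool} (hf : CmpN r t S f)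
    (hg : CmpN r t' S' g) : CmpN r (t + t') (S + S') (fun x => f x && g x) := by
  have h := CmpN.subst (I := I) (W := Bool) [.cmp false true] false
    (fun b => if b then g else f) r (fun b => if b then t' else t) (fun b => if b then S' else S)
    (by intro b; cases b <;> simpa)
  simp only [Fintype.sum_bool, if_true, Bool.false_eq_true, if_false, negs, run, step, nesting] at h
  exact h.mono (by omega) (by omega) (by omega)

theorem CmpN.or {r t S t' S' : ℕ} {f g : (I → Bool) → Bool} (hf : CmpN r t S f)
    (hg : CmpN r t' S' g) : CmpN r (t + t') (S + S') (fun x => f x || g x) := by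
  have h := CmpN.subst (I := I) (W := Bool) [.cmp false true] true
    (fun b => if b then g else f) r (fun b => if b then t' else t) (fun b => if b then S' else S)
    (by intro b; cases b <;> simpa)
  simp only [Fintype.sum_bool, if_true, Bool.false_eq_true, if_false, negs, run, step,
    Bool.true_eq_false, nesting] at h
  exact h.mono (by omega) (by omega) (by omega)

theorem CmpN.not {r t S : ℕ} {f : (I → Bool) → Bool} (hf : CmpN r t S f) :
    CmpN (r + 1) (t + 1) S (fun x => !f x) := by
  have h := CmpN.subst (I := I) (W := Unit) [.neg ()] () (fun _ => f) r (fun _ => t) (fun _ => S)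
    (fun _ => hf)
  simp only [univ_unique, sum_const, card_singleton, smul_eq_mul, one_mul, negs, run, step,
    if_true, nesting] at h
  exact h.mono (by simp) (by omega) (by omega)

theorem cmpN_any (f : ℕ → (I → Bool) → Bool) (r : ℕ) (t : ℕ → ℕ) (S : ℕ)
    (h : ∀ k, CmpN r (t k) S (f k)) (p : ℕ) :
    CmpN r (∑ k ∈ range p, t k) (p * S + 1) (fun x => (List.range p).any fun k => f k x) := by
  induction p with
  | zero =>
    have h1 := (cmp_label (I := I) (.inr false)).toN.mono (Nat.zero_le r) le_rfl le_rfl
    simpa [bit] using h1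
  | succ p ih =>
    have h1 := ih.or (h p)
    have e : (fun x : I → Bool => (List.range (p + 1)).any fun k => f k x) =
        fun x => (List.range p).any (fun k => f k x) || f p x := by
      funext x
      rw [List.range_succ, List.any_append]
      simp
    rw [e, sum_range_succ]
    exact h1.mono le_rfl le_rfl (by rw [add_mul]; omega)

end Pool.Agent.L5helper35.CN
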