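import Pool.Agent.L5helper35.CN.Defs

/-!
# Along a chain of inputs the bits at `t` NOT gates change at most `t ^ 2` times
-/

namespace Pool.Agent.L5helper35.CN

open Finset

section

variable {W : Type} [Fintype W] [DecidableEq W]

/-- one if the bit drops -/
def dn (c c' : Bool) : ℕ := if c = true ∧ c' = false then 1 else 0

/-- the number of wires whose bit drops -/
def drops (v v' : W → Bool) : ℕ := ∑ w, dn (v w) (v' w)

omit [Fintype W] in
theorem step_cmp_self (a : W) (v : W → Bool) : step (.cmp a a) v = v := by
  funext w
  simp only [step]
  by_cases h : w = a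
  · subst h; simp
  · simp [h]

theorem drops_cmp (a b : W) (v v' : W → Bool) :
    drops (step (.cmp a b) v) (step (.cmp a b) v') ≤ drops v v' := by
  by_cases hab : a = b
  · subst hab
    rw [step_cmp_self, step_cmp_self]
  · have hba : b ≠ a := fun h => hab h.symm
    unfold drops
    have hm : b ∈ univ.erase a := mem_erase.2 ⟨hba, mem_univ _⟩
    rw [← add_sum_erase univ _ (mem_univ a), ← add_sum_erase univ _ (mem_univ a),
      ← add_sum_erase (univ.erase a) _ hm, ← add_sum_erase (univ.erase a) _ hm]
    have e : ∑ w ∈ (univ.erase a).erase b, dn (step (.cmp a b) v w) (step (.cmp a b) v' w) =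
        ∑ w ∈ (univ.erase a).erase b, dn (v w) (v' w) := by
      apply sum_congr rfl
      intro w hw
      rw [mem_erase, mem_erase] at hw
      simp [step, hw.1, hw.2.1]
    have key : ∀ x y x' y' : Bool, dn (x && y) (x' && y') + dn (x || y) (x' || y') ≤
        dn x x' + dn y y' := by decide
    have h1 := key (v a) (v b) (v' a) (v' b)
    rw [e]
    have e1 : step (.cmp a b) v a = (v a && v b) := by simp [step]
    have e2 : step (.cmp a b) v' a = (v' a && v' b) := by simp [step]
    have e3 : step (.cmp a b) v b = (v a || v b) := by simp [step, hba]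
    have e4 : step (.cmp a b) v' b = (v' a || v' b) := by simp [step, hba]
    rw [e1, e2, e3, e4]
    omega

theorem drops_neg (a : W) (v v' : W → Bool) :
    drops (step (.neg a) v) (step (.neg a) v') + dn (v a) (v' a) = drops v v' + dn (v' a) (v a) := by
  unfold drops
  rw [← add_sum_erase univ _ (mem_univ a), ← add_sum_erase univ _ (mem_univ a)]
  have e : ∑ w ∈ univ.erase a, dn (step (.neg a) v w) (step (.neg a) v' w) =
      ∑ w ∈ univ.erase a, dn (v w) (v' w) := by
    apply sum_congr rfl
    intro w hw
    rw [mem_erase] at hw
    simp [step, hw.1]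
  rw [e]
  have e1 : step (.neg a) v a = !v a := by simp [step]
  have e2 : step (.neg a) v' a = !v' a := by simp [step]
  rw [e1, e2]
  have key : ∀ x x' : Bool, dn (!x) (!x') = dn x' x := by decide
  rw [key]
  omega

theorem ups_downs (c : ℕ → Bool) (L : ℕ) :
    ∑ i ∈ range L, dn (c (i + 1)) (c i) + (if c 0 then 1 else 0) =
      ∑ i ∈ range L, dn (c i) (c (i + 1)) + (if c L then 1 else 0) := by
  induction L with
  | zero => simp
  | succ L ih =>
    rw [sum_range_succ, sum_range_succ]
    have key : ∀ x y : Bool, dn y x + (if x then 1 else 0) = dn x y + (if y then 1 else 0) := by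
      decide
    have := key (c L) (c (L + 1))
    omega

/-- **Counting changes along a chain.** -/
theorem chain_count (G : List (Gate W)) : ∀ (L k : ℕ) (X : ℕ → W → Bool),
    ∑ i ∈ range L, drops (X i) (X (i + 1)) ≤ k →
    ((range L).filter fun i => trace G (X i) ≠ trace G (X (i + 1))).card + k ^ 2 ≤
      (k + negs G) ^ 2 ∧
    ∑ i ∈ range L, drops (run G (X i)) (run G (X (i + 1))) ≤ k + negs G := by
  induction G with
  | nil =>
    intro L k X h
    constructor
    · simp [trace, negs]
    · simpa [run, negs] using h
  | cons g G ih =>
    intro L k X h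
    cases g with
    | cmp a b =>
      have h1 : ∑ i ∈ range L, drops (step (.cmp a b) (X i)) (step (.cmp a b) (X (i + 1))) ≤ k :=
        (sum_le_sum fun i _ => drops_cmp a b (X i) (X (i + 1))).trans h
      exact ih L k (fun i => step (.cmp a b) (X i)) h1
    | neg a =>
      have hd : ∑ i ∈ range L, dn (X i a) (X (i + 1) a) ≤ k := by
        refine (sum_le_sum fun i _ => ?_).trans h
        exact single_le_sum (f := fun w => dn (X i w) (X (i + 1) w)) (fun _ _ => Nat.zero_le _)
          (mem_univ a)
      have hu := ups_downs (fun i => X i a) L
      have hu' : ∑ i ∈ range L, dn (X (i + 1) a) (X i a) ≤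
          ∑ i ∈ range L, dn (X i a) (X (i + 1) a) + 1 := by
        split_ifs at hu <;> omega
      have h2 : ∑ i ∈ range L, drops (step (.neg a) (X i)) (step (.neg a) (X (i + 1))) ≤ k + 1 := by
        have h3 : ∑ i ∈ range L, (drops (step (.neg a) (X i)) (step (.neg a) (X (i + 1))) +
            dn (X i a) (X (i + 1) a)) =
            ∑ i ∈ range L, (drops (X i) (X (i + 1)) + dn (X (i + 1) a) (X i a)) :=
          sum_congr rfl fun i _ => drops_neg a (X i) (X (i + 1))
        rw [sum_add_distrib, sum_add_distrib] at h3
        omega
      obtain ⟨h4, h5⟩ := ih L (k + 1) (fun i => step (.neg a) (X i)) h2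
      constructor
      · have h6 : ((range L).filter fun i => trace (.neg a :: G) (X i) ≠
            trace (.neg a :: G) (X (i + 1))).card ≤
            ((range L).filter fun i => X i a ≠ X (i + 1) a).card +
            ((range L).filter fun i => trace G (step (.neg a) (X i)) ≠
              trace G (step (.neg a) (X (i + 1)))).card := by
          refine (card_le_card ?_).trans (card_union_le _ _)
          intro i hi
          rw [mem_union, mem_filter, mem_filter]
          rw [mem_filter] at hi
          obtain ⟨hi1, hi2⟩ := hi
          by_contra hcon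
          push Not at hcon
          apply hi2
          simp only [trace]
          rw [hcon.1 hi1, hcon.2 hi1]
        have h7 : ((range L).filter fun i => X i a ≠ X (i + 1) a).card =
            ∑ i ∈ range L, dn (X (i + 1) a) (X i a) + ∑ i ∈ range L, dn (X i a) (X (i + 1) a) := by
          rw [card_filter, ← sum_add_distrib]
          apply sum_congr rfl
          intro i _
          generalize X i a = x
          generalize X (i + 1) a = y
          revert x y
          decide
        have h8 : (k + 1 + negs G) ^ 2 = (k + negs (.neg a :: G)) ^ 2 := by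
          simp only [negs]
          ring
        have h9 : (k + 1) ^ 2 = k ^ 2 + 2 * k + 1 := by ring
        omega
      · have h8 : k + 1 + negs G = k + negs (.neg a :: G) := by
          simp only [negs]
          ring
        rw [← h8]
        exact h5

end

end Pool.Agent.L5helper35.CN
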