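import Pool.Agent.L5helper35.CN.Defs

/-!
# Replacing NOT gates by constants
-/

namespace Pool.Agent.L5helper35.CN

open Finset

section

variable {W Z : Type} [DecidableEq W] [DecidableEq Z]

/-- The NOT gate number `z` is replaced by the constant `!c z`, its input is moved to the wire
`inr z`. -/
def comp (c : Z → Bool) : List (Gate W) → List Z → List (Gate (W ⊕ Z))
  | [], _ => []
  | .cmp a b :: G, zs => .cmp (.inl a) (.inl b) :: comp c G zs
  | .neg a :: G, z :: zs =>
      (if c z then .cmp (.inl a) (.inr z) else .cmp (.inr z) (.inl a)) :: comp c G zs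
  | .neg _ :: G, [] => comp c G []

omit [DecidableEq W] [DecidableEq Z] in
theorem negs_comp (c : Z → Bool) (G : List (Gate W)) : ∀ zs, negs (comp c G zs) = 0 := by
  induction G with
  | nil => intro zs; rfl
  | cons g G ih =>
    intro zs
    cases g with
    | cmp a b => exact ih zs
    | neg a =>
      cases zs with
      | nil => exact ih []
      | cons z zs =>
        simp only [comp]
        split_ifs <;> exact ih zs

theorem step_comp (c : Z → Bool) (a : W) (z : Z) (v : W ⊕ Z → Bool) (hz : v (.inr z) = !c z) :
    (∀ w, step (if c z then .cmp (.inl a) (.inr z) else .cmp (.inr z) (.inl a)) v (.inl w) =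
      if w = a then !c z else v (.inl w)) ∧
    step (if c z then .cmp (.inl a) (.inr z) else .cmp (.inr z) (.inl a)) v (.inr z) = v (.inl a) ∧
    ∀ z', z' ≠ z → step (if c z then .cmp (.inl a) (.inr z) else .cmp (.inr z) (.inl a)) v (.inr z') =
      v (.inr z') := by
  cases hc : c z with
  | true =>
    rw [hc] at hz
    refine ⟨fun w => ?_, ?_, fun z' hz' => ?_⟩
    · simp [step, hz]
    · simp [step, hz]
    · simp [step, hz']
  | false =>
    rw [hc] at hz
    refine ⟨fun w => ?_, ?_, fun z' hz' => ?_⟩
    · simp [step, hz]
    · simp [step, hz]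
    · simp [step, hz']

theorem comp_spec (c : Z → Bool) (G : List (Gate W)) : ∀ (zs : List Z) (v : W ⊕ Z → Bool), zs.Nodup →
    zs.length = negs G → (∀ z ∈ zs, v (.inr z) = !c z) →
    (∀ z, z ∉ zs → run (comp c G zs) v (.inr z) = v (.inr z)) ∧
    (trace G (fun w => v (.inl w)) = zs.map c →
      (∀ w, run (comp c G zs) v (.inl w) = run G (fun w => v (.inl w)) w) ∧
      ∀ z ∈ zs, run (comp c G zs) v (.inr z) = c z) ∧
    ((∀ z ∈ zs, run (comp c G zs) v (.inr z) = c z) → trace G (fun w => v (.inl w)) = zs.map c) := by
  induction G with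
  | nil =>
    intro zs v _ hl _
    have : zs = [] := List.length_eq_zero_iff.1 (by simpa [negs] using hl)
    subst this
    simp [comp, run, trace]
  | cons g G ih =>
    intro zs v hnd hl hv
    cases g with
    | cmp a b =>
      obtain ⟨h1, h2, h3⟩ := ih zs (step (.cmp (.inl a) (.inl b)) v) hnd hl (fun z hz => by
        rw [← hv z hz]; simp [step])
      have e : (fun w => step (.cmp (.inl a) (.inl b)) v (.inl w)) =
          step (.cmp a b) (fun w => v (.inl w)) := by
        funext w
        simp [step]
      rw [e] at h2 h3
      refine ⟨fun z hz => ?_, h2, h3⟩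
      simp only [comp, run]
      rw [h1 z hz]
      simp [step]
    | neg a =>
      cases zs with
      | nil => simp [negs] at hl
      | cons z zs =>
        rw [List.nodup_cons] at hnd
        have hl' : zs.length = negs G := by
          simpa [negs] using hl
        obtain ⟨s1, s2, s3⟩ := step_comp c a z v (hv z (by simp))
        set v1 := step (if c z then .cmp (.inl a) (.inr z) else .cmp (.inr z) (.inl a)) v with hv1
        have hrun : run (comp c (.neg a :: G) (z :: zs)) v = run (comp c G zs) v1 := rfl
        have hne : ∀ z' ∈ zs, z' ≠ z := fun z' hz' h => hnd.1 (h ▸ hz')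
        obtain ⟨h1, h2, h3⟩ := ih zs v1 hnd.2 hl' (fun z' hz' => by
          rw [s3 z' (hne z' hz')]
          exact hv z' (by simp [hz']))
        have hz : run (comp c G zs) v1 (.inr z) = v (.inl a) := by
          rw [h1 z hnd.1, s2]
        have e : v (.inl a) = c z → (fun w => v1 (.inl w)) = step (.neg a) (fun w => v (.inl w)) := by
          intro h
          funext w
          rw [s1]
          simp only [step]
          rw [h]
        rw [hrun]
        refine ⟨fun z' hz' => ?_, fun h => ?_, fun h => ?_⟩
        · rw [List.mem_cons, not_or] at hz'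
          rw [h1 z' hz'.2, s3 z' hz'.1]
        · simp only [trace, List.map_cons, List.cons.injEq] at h
          rw [← e h.1] at h
          obtain ⟨h4, h5⟩ := h2 h.2
          refine ⟨fun w => ?_, fun z' hz' => ?_⟩
          · rw [h4 w]
            simp only [run]
            rw [← e h.1]
          · rw [List.mem_cons] at hz'
            rcases hz' with rfl | hz'
            · rw [hz, h.1]
            · exact h5 z' hz'
        · have h4 : v (.inl a) = c z := by
            rw [← hz]
            exact h z (by simp)
          have h5 := h3 fun z' hz' => h z' (by simp [hz'])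
          simp only [trace, List.map_cons]
          rw [← e h4, h5, h4]

/-- disjunctions of wires -/
theorem run_or (o : W) (L : List W) : ∀ v : W → Bool, o ∉ L → L.Nodup →
    run (L.map fun a => Gate.cmp a o) v o = (v o || L.any v) := by
  induction L with
  | nil => intro v _ _; simp [run]
  | cons a L ih =>
    intro v ho hL
    rw [List.mem_cons, not_or] at ho
    rw [List.nodup_cons] at hL
    simp only [List.map_cons, run]
    rw [ih _ ho.2 hL.2]
    have e1 : step (.cmp a o) v o = (v a || v o) := by
      simp [step, ho.1]
    have e2 : L.any (step (.cmp a o) v) = L.any v := by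
      have : ∀ b ∈ L, step (.cmp a o) v b = v b := by
        intro b hb
        have h3 : b ≠ a := fun h => hL.1 (h ▸ hb)
        have h4 : b ≠ o := fun h => ho.2 (h ▸ hb)
        simp [step, h3, h4]
      rw [Bool.eq_iff_iff, List.any_eq_true, List.any_eq_true]
      constructor
      · rintro ⟨b, hb, h⟩
        exact ⟨b, hb, by rw [← this b hb]; exact h⟩
      · rintro ⟨b, hb, h⟩
        exact ⟨b, hb, by rw [this b hb]; exact h⟩
    rw [e1, e2, List.any_cons]
    cases v a <;> cases v o <;> simp

omit [DecidableEq W] in
theorem negs_or (o : W) (L : List W) : negs (L.map fun a => Gate.cmp a o) = 0 := by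
  induction L with
  | nil => rfl
  | cons a L ih => exact ih

end

end Pool.Agent.L5helper35.CN

namespace Pool.Agent.L5helper35.CN

open Finset

section

variable {W Z : Type} [DecidableEq W] [DecidableEq Z]

/-- the gates which compute the disjunction of the output and of the inputs of the NOT gates which
were `0` -/
def hGates (c : Z → Bool) (G : List (Gate W)) (zs : List Z) (o : W) : List (Gate (W ⊕ Z)) :=
  comp c G zs ++ ((zs.filter fun z => !c z).map Sum.inr).map fun a => Gate.cmp a (.inl o)

omit [DecidableEq W] [DecidableEq Z] in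
theorem negs_hGates (c : Z → Bool) (G : List (Gate W)) (zs : List Z) (o : W) :
    negs (hGates c G zs o) = 0 := by
  unfold hGates
  rw [negs_append, negs_comp, negs_or]

theorem run_hGates (c : Z → Bool) (G : List (Gate W)) (zs : List Z) (o : W) (hnd : zs.Nodup)
    (v : W ⊕ Z → Bool) : run (hGates c G zs o) v (.inl o) = true ↔
      run (comp c G zs) v (.inl o) = true ∨
        ∃ z ∈ zs, c z = false ∧ run (comp c G zs) v (.inr z) = true := by
  unfold hGates
  rw [run_append, run_or _ _ _ (by simp) (List.Nodup.map Sum.inr_injective (hnd.filter _)),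
    Bool.or_eq_true, List.any_eq_true]
  apply or_congr_right
  constructor
  · rintro ⟨b, hb, h⟩
    rw [List.mem_map] at hb
    obtain ⟨z, hz, rfl⟩ := hb
    rw [List.mem_filter] at hz
    exact ⟨z, hz.1, by simpa using hz.2, h⟩
  · rintro ⟨z, hz, hc, h⟩
    exact ⟨.inr z, List.mem_map.2 ⟨z, List.mem_filter.2 ⟨hz, by simp [hc]⟩, rfl⟩, h⟩

/-- Inputs above `v0` which are accepted are accepted after the replacement. -/
theorem hGates_true (c : Z → Bool) (G : List (Gate W)) (zs : List Z) (o : W) (hnd : zs.Nodup)
    (hl : zs.length = negs G) (v0 v : W → Bool) (hv : ∀ w, v0 w = true → v w = true)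
    (h0 : trace G v0 = zs.map c) (h : run G v o = true) :
    run (hGates c G zs o) (Sum.elim v fun z => !c z) (.inl o) = true := by
  rw [run_hGates c G zs o hnd]
  by_contra hcon
  push Not at hcon
  obtain ⟨h1, h2⟩ := hcon
  obtain ⟨-, k2, k3⟩ := comp_spec c G zs (Sum.elim v fun z => !c z) hnd hl (fun z _ => rfl)
  obtain ⟨-, l2, -⟩ := comp_spec c G zs (Sum.elim v0 fun z => !c z) hnd hl (fun z _ => rfl)
  have h3 := (l2 h0).2
  have h4 : ∀ z ∈ zs, run (comp c G zs) (Sum.elim v fun z => !c z) (.inr z) = c z := by
    intro z hz
    cases hc : c z with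
    | false =>
      have := h2 z hz hc
      simpa using this
    | true =>
      have h5 := h3 z hz
      rw [hc] at h5
      refine run_mono (comp c G zs) (negs_comp c G zs) _ _ ?_ _ h5
      rintro (w | z')
      · exact hv w
      · exact id
  have h6 := (k2 (k3 h4)).1 o
  rw [h6] at h1
  exact h1 h

/-- Rejected inputs with the same bits at the NOT gates are rejected after the replacement. -/
theorem hGates_false (c : Z → Bool) (G : List (Gate W)) (zs : List Z) (o : W) (hnd : zs.Nodup)
    (hl : zs.length = negs G) (v : W → Bool) (h0 : trace G v = zs.map c) (h : run G v o = false) :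
    run (hGates c G zs o) (Sum.elim v fun z => !c z) (.inl o) = false := by
  rw [← Bool.not_eq_true, run_hGates c G zs o hnd]
  obtain ⟨-, k2, -⟩ := comp_spec c G zs (Sum.elim v fun z => !c z) hnd hl (fun z _ => rfl)
  obtain ⟨h1, h2⟩ := k2 h0
  rintro (h3 | ⟨z, hz, hc, h3⟩)
  · rw [h1 o] at h3
    have : run G (fun w => (Sum.elim v fun z => !c z) (.inl w)) o = false := h
    rw [this] at h3
    exact absurd h3 (by simp)
  · rw [h2 z hz, hc] at h3
    exact absurd h3 (by simp)

end

end Pool.Agent.L5helper35.CN
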