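import Pool.Agent.L5helper35.CN.Lower

/-!
# At polynomial size (number of NOT gates) * (nesting) is almost the number of input bits
-/

namespace Pool.Agent.L5helper35.CN

open Finset Filter Pool.Agent.L5helper12.CC

theorem card_bits (L n : ℕ) : Fintype.card (Fin L × Eqn n) = L * (n.choose 3 * 2) := by
  rw [Fintype.card_prod, Fintype.card_prod, Fintype.card_finset_len, Fintype.card_fin,
    Fintype.card_fin, ZMod.card]

/-- growth of the logarithm -/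
theorem ev_log (ε : ℝ) (hε : 0 < ε) : ∀ᶠ L : ℕ in atTop, ((Nat.log 2 L : ℕ) : ℝ) ^ 6 ≤ (L : ℝ) ^ ε := by
  have h1 : (fun x : ℝ => Real.log x ^ (6 : ℝ)) =o[atTop] fun x => x ^ ε :=
    isLittleO_log_rpow_rpow_atTop 6 hε
  have h2 := h1.bound (show (0 : ℝ) < 1 / 64 by norm_num)
  have h3 := tendsto_natCast_atTop_atTop (R := ℝ)
  filter_upwards [h3.eventually h2, eventually_ge_atTop 2] with L hL hL2
  have hL1 : (1 : ℝ) ≤ L := by
    have : 1 ≤ L := by omega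
    exact_mod_cast this
  have hlog : 0 ≤ Real.log L := Real.log_nonneg hL1
  rw [Real.norm_of_nonneg (by positivity), Real.norm_of_nonneg (by positivity)] at hL
  have h4 : ((Nat.log 2 L : ℕ) : ℝ) ≤ 2 * Real.log L := by
    have h5 : (2 : ℝ) ^ (Nat.log 2 L) ≤ L := by
      exact_mod_cast Nat.pow_log_le_self 2 (by omega)
    have h6 : (Nat.log 2 L : ℝ) * Real.log 2 ≤ Real.log L := by
      rw [← Real.log_pow]
      exact Real.log_le_log (by positivity) h5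
    have h7 : (0.5 : ℝ) < Real.log 2 := by
      have := Real.log_two_gt_d9
      linarith
    have h8 : (0 : ℝ) ≤ Nat.log 2 L := Nat.cast_nonneg _
    nlinarith
  have h5 : ((Nat.log 2 L : ℕ) : ℝ) ^ 6 ≤ (2 * Real.log L) ^ 6 :=
    pow_le_pow_left₀ (Nat.cast_nonneg _) h4 6
  have h6 : Real.log L ^ (6 : ℝ) = Real.log L ^ 6 := by
    exact_mod_cast Real.rpow_natCast (Real.log L) 6
  rw [h6] at hL
  calc ((Nat.log 2 L : ℕ) : ℝ) ^ 6 ≤ (2 * Real.log L) ^ 6 := h5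
    _ = 64 * Real.log L ^ 6 := by ring
    _ ≤ 64 * (1 / 64 * (L : ℝ) ^ ε) := by linarith
    _ = (L : ℝ) ^ ε := by ring

theorem ev_quad (C : ℝ) (a : ℕ) : ∀ᶠ L : ℕ in atTop,
    C * (1 + (7 * a + 1) * ((Nat.log 2 L : ℕ) + 1 : ℝ)) < ((Nat.log 2 L : ℕ) : ℝ) ^ 2 := by
  have h1 : Tendsto (fun L : ℕ => Nat.log 2 L) atTop atTop := by
    rw [tendsto_atTop]
    intro b
    filter_upwards [eventually_ge_atTop (2 ^ b)] with L hL
    exact (Nat.le_log_iff_pow_le (by norm_num) (by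
      have := Nat.pow_pos (n := b) (show 0 < 2 by norm_num)
      omega)).2 hL
  obtain ⟨B, hB⟩ := exists_nat_gt (|C| * (1 + 2 * (7 * a + 1)))
  filter_upwards [h1.eventually (eventually_ge_atTop (B + 1))] with L hL
  have h2 : ((B : ℝ) + 1) ≤ ((Nat.log 2 L : ℕ) : ℝ) := by exact_mod_cast hL
  set ℓ : ℝ := ((Nat.log 2 L : ℕ) : ℝ)
  have hB0 : (0 : ℝ) ≤ B := Nat.cast_nonneg _
  have h3 : (1 : ℝ) ≤ ℓ := by linarith
  have ha : (0 : ℝ) ≤ a := Nat.cast_nonneg _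
  have h4 : C * (1 + (7 * a + 1) * (ℓ + 1)) ≤ |C| * (1 + 2 * (7 * a + 1)) * ℓ := by
    have h5 : C * (1 + (7 * a + 1) * (ℓ + 1)) ≤ |C| * (1 + (7 * a + 1) * (ℓ + 1)) :=
      mul_le_mul_of_nonneg_right (le_abs_self C) (by positivity)
    have h6 : 1 + (7 * a + 1) * (ℓ + 1) ≤ (1 + 2 * (7 * a + 1)) * ℓ := by nlinarith
    have h7 := mul_le_mul_of_nonneg_left h6 (abs_nonneg C)
    linarith
  have h5 : |C| * (1 + 2 * (7 * a + 1)) * ℓ < ℓ * ℓ := by
    apply mul_lt_mul_of_pos_right _ (by linarith)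
    linarith
  calc C * (1 + (7 * a + 1) * (ℓ + 1)) ≤ |C| * (1 + 2 * (7 * a + 1)) * ℓ := h4
    _ < ℓ * ℓ := h5
    _ = ℓ ^ 2 := by ring

/-- **At polynomial size (number of NOT gates) * (nesting) is almost the number of input bits.** -/
theorem poly_size (a : ℕ) (ε : ℝ) (hε : 0 < ε) : ∃ L0 : ℕ, ∀ L ≥ L0,
    ∀ N : Circuit (Fin L × Eqn (Nat.log 2 L ^ 2)), ComputesOr (unsat (Nat.log 2 L ^ 2)) N →
      (N.wires : ℝ) ≤ (Fintype.card (Fin L × Eqn (Nat.log 2 L ^ 2)) : ℝ) ^ a →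
      (Fintype.card (Fin L × Eqn (Nat.log 2 L ^ 2)) : ℝ) ^ (1 - ε) ≤
        ((N.nest * negs N.gates : ℕ) : ℝ) := by
  obtain ⟨C, hC, h⟩ := few_negations
  set δ : ℝ := min ε (1 / 2) with hδ
  have hδ0 : 0 < δ := lt_min hε (by norm_num)
  have hδ4 : δ ≤ 1 / 2 := min_le_right _ _
  have hδε : δ ≤ ε := min_le_left _ _
  have hev := ((ev_log δ hδ0).and ((ev_quad C a).and (eventually_ge_atTop 4)))
  rw [eventually_atTop] at hev
  obtain ⟨L0, hL0⟩ := hev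
  refine ⟨L0, fun L hL => ?_⟩
  obtain ⟨h1, h2, h3⟩ := hL0 L hL
  have hℓ2 : 2 ≤ Nat.log 2 L :=
    (Nat.le_log_iff_pow_le (by norm_num) (by omega)).2 (by simpa using h3)
  have hℓL' : Nat.log 2 L ≤ L := Nat.log_le_self 2 L
  have hℓL2 : L < 2 ^ (Nat.log 2 L + 1) := Nat.lt_pow_succ_log_self (b := 2) (by norm_num) L
  generalize Nat.log 2 L = ℓ at h1 h2 hℓ2 hℓL' hℓL2 ⊢
  intro N hN hS
  obtain ⟨M, hM⟩ : ∃ M, M = Fintype.card (Fin L × Eqn (ℓ ^ 2)) := ⟨_, rfl⟩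
  rw [← hM] at hS ⊢
  have hMle : M ≤ L * ℓ ^ 6 := by
    rw [hM, card_bits]
    apply Nat.mul_le_mul_left
    calc (ℓ ^ 2).choose 3 * 2 ≤ (ℓ ^ 2) ^ 3 := choose_le_cube _
      _ = ℓ ^ 6 := by ring
  have hM1 : 1 ≤ M := by
    rw [hM, card_bits]
    apply Nat.mul_pos (by omega)
    apply Nat.mul_pos _ (by norm_num)
    apply Nat.choose_pos
    calc 3 ≤ 2 ^ 2 := by norm_num
      _ ≤ ℓ ^ 2 := Nat.pow_le_pow_left hℓ2 2
  have hM1' : (1 : ℝ) ≤ M := by exact_mod_cast hM1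
  have hLp : (1 : ℝ) ≤ L := by
    have : 1 ≤ L := by omega
    exact_mod_cast this
  have hMR : (M : ℝ) ≤ L * (ℓ : ℝ) ^ 6 := by exact_mod_cast hMle
  refine le_trans (Real.rpow_le_rpow_of_exponent_le hM1' (show 1 - ε ≤ 1 - δ by linarith)) ?_
  by_contra hcon
  push Not at hcon
  have h4 : ((N.nest * negs N.gates : ℕ) : ℝ) < L := by
    calc ((N.nest * negs N.gates : ℕ) : ℝ) < (M : ℝ) ^ (1 - δ) := hcon
      _ ≤ (L * (ℓ : ℝ) ^ 6) ^ (1 - δ) :=
          Real.rpow_le_rpow (by linarith) hMR (by linarith)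
      _ ≤ (L * (L : ℝ) ^ δ) ^ (1 - δ) := by
          apply Real.rpow_le_rpow (by positivity) _ (by linarith)
          exact mul_le_mul_of_nonneg_left h1 (by linarith)
      _ = (L : ℝ) ^ ((1 + δ) * (1 - δ)) := by
          have : (L : ℝ) * (L : ℝ) ^ δ = (L : ℝ) ^ (1 + δ) := by
            rw [Real.rpow_add (by linarith), Real.rpow_one]
          rw [this, ← Real.rpow_mul (by linarith)]
      _ ≤ (L : ℝ) ^ (1 : ℝ) := by
          apply Real.rpow_le_rpow_of_exponent_le hLp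
          nlinarith
      _ = L := Real.rpow_one _
  have h5 : N.nest * negs N.gates < L := by exact_mod_cast h4
  have h6 := h (ℓ ^ 2) L N hN h5
  have hS1 : (1 : ℝ) ≤ N.wires := by
    have : 1 ≤ N.wires := by
      have := N.out.isLt
      omega
    exact_mod_cast this
  have hlogL : Real.log L ≤ (ℓ : ℝ) + 1 := by
    have h7 : (L : ℝ) ≤ 2 ^ (ℓ + 1) := by
      exact_mod_cast hℓL2.le
    have h8 := Real.log_le_log (by linarith) h7
    rw [Real.log_pow] at h8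
    have h9 : Real.log 2 ≤ 1 := by
      have := Real.log_two_lt_d9
      linarith
    have h10 : (0 : ℝ) ≤ ((ℓ + 1 : ℕ) : ℝ) := Nat.cast_nonneg _
    have h11 : ((ℓ + 1 : ℕ) : ℝ) * Real.log 2 ≤ ((ℓ + 1 : ℕ) : ℝ) := by nlinarith
    push_cast at h8 h11
    linarith
  have hlogL0 : 0 ≤ Real.log L := Real.log_nonneg hLp
  have hlogM : Real.log M ≤ 7 * Real.log L := by
    have hℓL : (ℓ : ℝ) ≤ L := by exact_mod_cast hℓL'
    have h7 : (M : ℝ) ≤ (L : ℝ) ^ 7 := by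
      calc (M : ℝ) ≤ L * (ℓ : ℝ) ^ 6 := hMR
        _ ≤ L * (L : ℝ) ^ 6 := by
            apply mul_le_mul_of_nonneg_left _ (by linarith)
            exact pow_le_pow_left₀ (Nat.cast_nonneg _) hℓL 6
        _ = (L : ℝ) ^ 7 := by ring
    have h8 := Real.log_le_log (by linarith) h7
    rw [Real.log_pow] at h8
    exact_mod_cast h8
  have hlogS : Real.log N.wires ≤ a * (7 * Real.log L) := by
    have h7 := Real.log_le_log (by linarith) hS
    rw [Real.log_pow] at h7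
    have ha : (0 : ℝ) ≤ a := Nat.cast_nonneg _
    exact h7.trans (mul_le_mul_of_nonneg_left hlogM ha)
  have h7 : Real.log (N.wires * L) ≤ (7 * a + 1) * ((ℓ : ℝ) + 1) := by
    rw [Real.log_mul (by linarith) (by linarith)]
    have ha : (0 : ℝ) ≤ a := Nat.cast_nonneg _
    have h8 : (a : ℝ) * (7 * Real.log L) ≤ a * (7 * ((ℓ : ℝ) + 1)) := by
      apply mul_le_mul_of_nonneg_left _ ha
      linarith
    nlinarith
  have h8 : C * (1 + Real.log (N.wires * L)) ≤ C * (1 + (7 * a + 1) * ((ℓ : ℝ) + 1)) := by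
    apply mul_le_mul_of_nonneg_left _ hC.le
    linarith
  have h9 : ((ℓ ^ 2 : ℕ) : ℝ) = (ℓ : ℝ) ^ 2 := by push_cast; rfl
  rw [h9] at h6
  linarith

theorem sqrt_bound {M k t : ℕ} {ε : ℝ} (h1 : (M : ℝ) ^ (1 - ε) ≤ ((k * t : ℕ) : ℝ))
    (h2 : k ≤ t) : (M : ℝ) ^ ((1 - ε) / 2) ≤ t := by
  have h3 : ((k * t : ℕ) : ℝ) ≤ (t : ℝ) ^ 2 := by
    have h : k * t ≤ t ^ 2 := by
      rw [sq]
      exact Nat.mul_le_mul_right t h2
    exact_mod_cast h
  have h4 : (0 : ℝ) ≤ (M : ℝ) := Nat.cast_nonneg _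
  have h5 : ((M : ℝ) ^ ((1 - ε) / 2)) ^ 2 = (M : ℝ) ^ (1 - ε) := by
    rw [← Real.rpow_natCast ((M : ℝ) ^ ((1 - ε) / 2)) 2, ← Real.rpow_mul h4]
    congr 1
    push_cast
    ring
  apply le_of_pow_le_pow_left₀ (by norm_num : (2 : ℕ) ≠ 0) (Nat.cast_nonneg _)
  rw [h5]
  exact h1.trans h3

/-- **The number of NOT gates at polynomial size.** -/
theorem poly_size' (a : ℕ) (ε : ℝ) (hε : 0 < ε) : ∃ L0 : ℕ, ∀ L ≥ L0,
    ∀ N : Circuit (Fin L × Eqn (Nat.log 2 L ^ 2)), ComputesOr (unsat (Nat.log 2 L ^ 2)) N →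
      (N.wires : ℝ) ≤ (Fintype.card (Fin L × Eqn (Nat.log 2 L ^ 2)) : ℝ) ^ a →
      (Fintype.card (Fin L × Eqn (Nat.log 2 L ^ 2)) : ℝ) ^ (1 - ε) ≤
        ((N.nest * negs N.gates : ℕ) : ℝ) ∧
      (Fintype.card (Fin L × Eqn (Nat.log 2 L ^ 2)) : ℝ) ^ ((1 - ε) / 2) ≤ negs N.gates := by
  obtain ⟨L0, hL0⟩ := poly_size a ε hε
  refine ⟨L0, fun L hL N hN hS => ?_⟩
  have h1 := hL0 L hL N hN hS
  refine ⟨h1, sqrt_bound h1 ?_⟩
  have := nesting_le_negs N.gates (fun _ => 0) 0 (fun _ => le_rfl)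
  unfold Circuit.nest
  omega

end Pool.Agent.L5helper35.CN
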