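import Mathlib

/-!
# Greedy covers; averaging over one coordinate
-/

namespace Pool.Agent.L5helper35.CN

open Finset

theorem half_bound (n L : ℕ) (hL : 1 ≤ L) : 2 ^ n * (L - 1) ^ (L * (n + 1)) < L ^ (L * (n + 1)) := by
  have hL0 : (0 : ℝ) < L := by exact_mod_cast hL
  have h1 : (L : ℝ) - 1 ≤ L * Real.exp (-(1 / L)) := by
    have h2 : 1 - 1 / (L : ℝ) ≤ Real.exp (-(1 / L)) := by
      have := Real.add_one_le_exp (-(1 / (L : ℝ)))
      linarith
    calc (L : ℝ) - 1 = L * (1 - 1 / L) := by field_simp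
      _ ≤ _ := mul_le_mul_of_nonneg_left h2 hL0.le
  have hL1 : (0 : ℝ) ≤ (L : ℝ) - 1 := by
    have : (1 : ℝ) ≤ L := by exact_mod_cast hL
    linarith
  have h4 : ((L : ℝ) - 1) ^ (L * (n + 1)) ≤ (L : ℝ) ^ (L * (n + 1)) * Real.exp (-(n + 1 : ℝ)) := by
    calc ((L : ℝ) - 1) ^ (L * (n + 1)) ≤ (L * Real.exp (-(1 / L))) ^ (L * (n + 1)) :=
          pow_le_pow_left₀ hL1 h1 _
      _ = (L : ℝ) ^ (L * (n + 1)) * Real.exp (-(n + 1 : ℝ)) := by
          rw [mul_pow, ← Real.exp_nat_mul]
          congr 2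
          push_cast
          field_simp
  have h5 : (2 : ℝ) ^ n * Real.exp (-(n + 1 : ℝ)) < 1 := by
    have h6 : (2 : ℝ) ≤ Real.exp 1 := by
      have := Real.add_one_le_exp (1 : ℝ)
      linarith
    have h7 : (2 : ℝ) ^ (n + 1) ≤ Real.exp (n + 1 : ℝ) := by
      have : Real.exp (n + 1 : ℝ) = Real.exp 1 ^ (n + 1) := by
        rw [← Real.exp_nat_mul]
        push_cast
        ring_nf
      rw [this]
      exact pow_le_pow_left₀ (by norm_num) h6 _
    have h8 : (2 : ℝ) ^ n < 2 ^ (n + 1) := by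
      rw [pow_succ]
      have : (0 : ℝ) < 2 ^ n := by positivity
      linarith
    rw [Real.exp_neg, ← div_eq_mul_inv, div_lt_one (Real.exp_pos _)]
    linarith
  have h6 : (2 : ℝ) ^ n * ((L : ℝ) - 1) ^ (L * (n + 1)) < (L : ℝ) ^ (L * (n + 1)) := by
    calc (2 : ℝ) ^ n * ((L : ℝ) - 1) ^ (L * (n + 1))
        ≤ 2 ^ n * ((L : ℝ) ^ (L * (n + 1)) * Real.exp (-(n + 1 : ℝ))) :=
          mul_le_mul_of_nonneg_left h4 (by positivity)
      _ = (L : ℝ) ^ (L * (n + 1)) * (2 ^ n * Real.exp (-(n + 1 : ℝ))) := by ring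
      _ < (L : ℝ) ^ (L * (n + 1)) * 1 := by
          apply mul_lt_mul_of_pos_left h5
          positivity
      _ = _ := mul_one _
  have h7 : ((L - 1 : ℕ) : ℝ) = (L : ℝ) - 1 := by
    rw [Nat.cast_sub hL]
    simp
  rw [← h7] at h6
  exact_mod_cast h6

/-- greedy covers -/
theorem greedy {A H : Type*} (cov : H → A → Prop) (L : ℕ) (hL : 1 ≤ L) (No : Finset A)
    (h : ∀ U ⊆ No, U.Nonempty → ∃ x, ∃ V ⊆ U, (∀ v ∈ V, cov x v) ∧ U.card ≤ L * V.card) (k : ℕ) :
    ∃ hs : List H, hs.length ≤ k ∧ ∃ U ⊆ No, U.card * L ^ k ≤ No.card * (L - 1) ^ k ∧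
      ∀ v ∈ No, v ∉ U → ∃ x ∈ hs, cov x v := by
  classical
  induction k with
  | zero => exact ⟨[], le_rfl, No, Finset.Subset.refl _, by simp, fun v hv hv' => absurd hv hv'⟩
  | succ k ih =>
    obtain ⟨hs, h1, U, hU, h2, h3⟩ := ih
    rcases U.eq_empty_or_nonempty with rfl | hne
    · exact ⟨hs, by omega, ∅, empty_subset _, by simp, h3⟩
    · obtain ⟨x, V, hVU, hV, hc⟩ := h U hU hne
      refine ⟨x :: hs, by simpa using h1, U \ V, sdiff_subset.trans hU, ?_, ?_⟩
      · have e1 : (U \ V).card = U.card - V.card := card_sdiff_of_subset hVU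
        have e2 : (U \ V).card * L ≤ (L - 1) * U.card := by
          rw [e1, Nat.sub_mul, Nat.sub_mul, one_mul, mul_comm L U.card, mul_comm V.card L]
          omega
        calc (U \ V).card * L ^ (k + 1) = (U \ V).card * L * L ^ k := by ring
          _ ≤ (L - 1) * U.card * L ^ k := Nat.mul_le_mul_right _ e2
          _ = (L - 1) * (U.card * L ^ k) := by ring
          _ ≤ (L - 1) * (No.card * (L - 1) ^ k) := Nat.mul_le_mul_left _ h2
          _ = No.card * (L - 1) ^ (k + 1) := by ring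
      · intro v hv hv'
        by_cases hvU : v ∈ U
        · have hvV : v ∈ V := by
            by_contra hcon
            exact hv' (mem_sdiff.2 ⟨hvU, hcon⟩)
          exact ⟨x, by simp, hV v hvV⟩
        · obtain ⟨y, hy, hy'⟩ := h3 v hv hvU
          exact ⟨y, by simp [hy], hy'⟩

theorem exists_cover {A H : Type*} (cov : H → A → Prop) (L : ℕ) (hL : 1 ≤ L) (No : Finset A)
    (h : ∀ U ⊆ No, U.Nonempty → ∃ x, ∃ V ⊆ U, (∀ v ∈ V, cov x v) ∧ U.card ≤ L * V.card) (n : ℕ)
    (hn : No.card ≤ 2 ^ n) :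
    ∃ hs : List H, hs.length ≤ L * (n + 1) ∧ ∀ v ∈ No, ∃ x ∈ hs, cov x v := by
  obtain ⟨hs, h1, U, hU, h2, h3⟩ := greedy cov L hL No h (L * (n + 1))
  refine ⟨hs, h1, fun v hv => h3 v hv ?_⟩
  have h4 := half_bound n L hL
  have h5 : U.card = 0 := by
    by_contra hcon
    have h6 : 1 ≤ U.card := Nat.one_le_iff_ne_zero.2 hcon
    have h7 : No.card * (L - 1) ^ (L * (n + 1)) ≤ 2 ^ n * (L - 1) ^ (L * (n + 1)) :=
      Nat.mul_le_mul_right _ hn
    have h8 : L ^ (L * (n + 1)) ≤ U.card * L ^ (L * (n + 1)) := Nat.le_mul_of_pos_left _ h6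
    omega
  rw [card_eq_zero.1 h5]
  exact notMem_empty v

/-- averaging over one coordinate -/
theorem exists_slice {ι A : Type*} [Fintype ι] [DecidableEq ι] [Fintype A] [Nonempty A]
    [DecidableEq A] (L : ℕ) (T : Finset (ι → A)) (i : ι)
    (hT : Fintype.card (ι → A) ≤ L * T.card) :
    ∃ s : ι → A, Fintype.card A ≤ L * (univ.filter fun a => Function.update s i a ∈ T).card := by
  classical
  by_contra hcon
  push Not at hcon
  have h1 : ∑ s : ι → A, L * (univ.filter fun a => Function.update s i a ∈ T).card <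
      ∑ _s : ι → A, Fintype.card A := sum_lt_sum_of_nonempty univ_nonempty fun s _ => hcon s
  rw [sum_const, card_univ, smul_eq_mul, ← mul_sum] at h1
  let e : ((ι → A) × A) ≃ ((ι → A) × A) :=
    { toFun := fun p => (Function.update p.1 i p.2, p.1 i)
      invFun := fun p => (Function.update p.1 i p.2, p.1 i)
      left_inv := fun p => by simp
      right_inv := fun p => by simp }
  have h2 : ∑ s : ι → A, (univ.filter fun a => Function.update s i a ∈ T).card =
      T.card * Fintype.card A := by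
    have h3 : ∑ s : ι → A, (univ.filter fun a => Function.update s i a ∈ T).card =
        ∑ p : (ι → A) × A, if (e p).1 ∈ T then 1 else 0 := by
      rw [Fintype.sum_prod_type]
      apply sum_congr rfl
      intro s _
      rw [card_filter]
      rfl
    rw [h3, Equiv.sum_comp e (fun p => if p.1 ∈ T then 1 else 0), Fintype.sum_prod_type]
    rw [sum_comm]
    simp only [sum_ite_mem, univ_inter, sum_const, card_univ, smul_eq_mul, mul_one]
    rw [mul_comm]
  rw [h2] at h1
  have h4 : Fintype.card (ι → A) * Fintype.card A ≤ L * (T.card * Fintype.card A) := by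
    rw [← mul_assoc]
    exact Nat.mul_le_mul_right _ hT
  omega

end Pool.Agent.L5helper35.CN
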