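import Mathlib

/-!
# Comparator circuits with NOT gates
-/

namespace Pool.Agent.L5helper35.CN

open Finset

/-- A gate of a comparator circuit with the wires `W`: a comparator on two wires, or a NOT gate on
one wire. -/
inductive Gate (W : Type)
  | cmp (a b : W) : Gate W
  | neg (a : W) : Gate W

/-- The comparator `cmp a b` puts the conjunction on `a` and the disjunction on `b`; the gate
`neg a` replaces the bit on `a` by its negation. -/
def step {W : Type} [DecidableEq W] : Gate W → (W → Bool) → W → Bool
  | .cmp a b, v => fun w => if w = a then v a && v b else if w = b then v a || v b else v w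
  | .neg a, v => fun w => if w = a then !v a else v w

/-- the gates are applied one after the other -/
def run {W : Type} [DecidableEq W] : List (Gate W) → (W → Bool) → W → Bool
  | [], v => v
  | g :: G, v => run G (step g v)

/-- the number of NOT gates -/
def negs {W : Type} : List (Gate W) → ℕ
  | [] => 0
  | .cmp _ _ :: G => negs G
  | .neg _ :: G => negs G + 1

/-- A comparator circuit for inputs `I → Bool`: each wire carries at first an unnegated input bit
or a constant. -/
structure Circuit (I : Type) where
  /-- number of wires -/
  wires : ℕ
  /-- what a wire carries at first -/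
  label : Fin wires → I ⊕ Bool
  /-- the gates, in the order in which they are applied -/
  gates : List (Gate (Fin wires))
  /-- the output wire -/
  out : Fin wires

/-- the bit of a label -/
def bit {I : Type} (x : I → Bool) : I ⊕ Bool → Bool
  | .inl i => x i
  | .inr b => b

/-- the bit on the output wire at the end -/
def Circuit.value {I : Type} (N : Circuit I) (x : I → Bool) : Bool :=
  run N.gates (fun w => bit x (N.label w)) N.out

/-- If `d w` is the number of NOT gates on the longest path to the wire `w`, then `dstep g d w` is
this number after the gate `g`. -/
def dstep {W : Type} [DecidableEq W] : Gate W → (W → ℕ) → W → ℕ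
  | .cmp a b, d => fun w => if w = a then max (d a) (d b) else if w = b then max (d a) (d b) else d w
  | .neg a, d => fun w => if w = a then d a + 1 else d w

/-- the largest number of NOT gates on a path, if `d w` of them come before the wire `w` -/
def nesting {W : Type} [DecidableEq W] : List (Gate W) → (W → ℕ) → ℕ
  | [], _ => 0
  | .cmp a b :: G, d => nesting G (dstep (.cmp a b) d)
  | .neg a :: G, d => max (d a + 1) (nesting G (dstep (.neg a) d))

/-- the largest number of NOT gates on a path of the circuit -/
def Circuit.nest {I : Type} (N : Circuit I) : ℕ := nesting N.gates fun _ => 0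

/-- The circuit computes the disjunction of `L` copies of `f` (on disjoint sets of inputs). -/
def ComputesOr {I : Type} {L : ℕ} (f : (I → Bool) → Bool) (N : Circuit (Fin L × I)) : Prop :=
  ∀ E, N.value E = true ↔ ∃ l, f (fun e => E (l, e)) = true

/-- `f` is monotone -/
def Mono {I : Type} (f : (I → Bool) → Bool) : Prop :=
  ∀ x y : I → Bool, (∀ i, x i = true → y i = true) → f x = true → f y = true

/-- the bits which enter the NOT gates -/
def trace {W : Type} [DecidableEq W] : List (Gate W) → (W → Bool) → List Bool
  | [], _ => []
  | .cmp a b :: G, v => trace G (step (.cmp a b) v)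
  | .neg a :: G, v => v a :: trace G (step (.neg a) v)

theorem run_append {W : Type} [DecidableEq W] (G H : List (Gate W)) : ∀ v, run (G ++ H) v =
    run H (run G v) := by
  induction G with
  | nil => intro v; rfl
  | cons g G ih => intro v; exact ih _

theorem negs_append {W : Type} (G H : List (Gate W)) : negs (G ++ H) = negs G + negs H := by
  induction G with
  | nil => simp [negs]
  | cons g G ih =>
    cases g with
    | cmp a b => simp [negs, ih]
    | neg a =>
      simp [negs, ih]
      omega

theorem length_trace {W : Type} [DecidableEq W] (G : List (Gate W)) : ∀ v,
    (trace G v).length = negs G := by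
  induction G with
  | nil => intro v; rfl
  | cons g G ih => intro v; cases g <;> simp [trace, negs, ih]

/-- Without NOT gates the circuit is monotone. -/
theorem run_mono {W : Type} [DecidableEq W] (G : List (Gate W)) (hG : negs G = 0) :
    ∀ v v' : W → Bool, (∀ w, v w = true → v' w = true) → ∀ w, run G v w = true → run G v' w = true := by
  induction G with
  | nil => intro v v' h w; exact h w
  | cons g G ih =>
    intro v v' h w
    cases g with
    | cmp a b =>
      apply ih hG
      intro w
      simp only [step]
      have ha := h a
      have hb := h b
      split_ifs
      · rw [Bool.and_eq_true, Bool.and_eq_true]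
        exact fun h => ⟨ha h.1, hb h.2⟩
      · rw [Bool.or_eq_true, Bool.or_eq_true]
        exact fun h => h.imp ha hb
      · exact h w
    | neg a => simp [negs] at hG

/-- the image of a gate -/
def Gate.map {W V : Type} (φ : W → V) : Gate W → Gate V
  | .cmp a b => .cmp (φ a) (φ b)
  | .neg a => .neg (φ a)

theorem negs_map {W V : Type} (φ : W → V) (G : List (Gate W)) :
    negs (G.map (Gate.map φ)) = negs G := by
  induction G with
  | nil => rfl
  | cons g G ih => cases g <;> simp [negs, Gate.map, ih]

theorem run_map {W V : Type} [DecidableEq W] [DecidableEq V] (φ : W → V)
    (hφ : Function.Injective φ) (G : List (Gate W)) : ∀ v : V → Bool,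
    (∀ w, run (G.map (Gate.map φ)) v (φ w) = run G (fun w => v (φ w)) w) ∧
    ∀ y, (∀ w, φ w ≠ y) → run (G.map (Gate.map φ)) v y = v y := by
  induction G with
  | nil => intro v; exact ⟨fun _ => rfl, fun _ _ => rfl⟩
  | cons g G ih =>
    intro v
    obtain ⟨h1, h2⟩ := ih (step (Gate.map φ g) v)
    refine ⟨fun w => ?_, fun y hy => ?_⟩
    · simp only [List.map_cons, run]
      rw [h1]
      congr 1
      funext w
      cases g with
      | cmp a b => simp [step, Gate.map, hφ.eq_iff]
      | neg a => simp [step, Gate.map, hφ.eq_iff]
    · simp only [List.map_cons, run]
      rw [h2 y hy]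
      cases g with
      | cmp a b => simp [step, Gate.map, (hy a).symm, (hy b).symm]
      | neg a => simp [step, Gate.map, (hy a).symm]

end Pool.Agent.L5helper35.CN
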