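import Pool.Agent.L5helper35.CN.Calc

/-!
# Thresholds by comparators
-/

namespace Pool.Agent.L5helper35.CN

open Finset

/-- comparing the wire `i` with the wires `0, ..., p - 1` -/
def inner (i p : ℕ) : List (Gate ℕ) := (List.range p).map fun j => .cmp i j

/-- sorting the wires `0, ..., m - 1` -/
def sortG (m : ℕ) : List (Gate ℕ) := (List.range m).flatMap fun i => inner i i

theorem negs_inner (i p : ℕ) : negs (inner i p) = 0 := by
  induction p with
  | zero => rfl
  | succ p ih =>
    unfold inner at ih ⊢
    rw [List.range_succ, List.map_append, negs_append, ih]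
    rfl

theorem negs_sortG (m : ℕ) : negs (sortG m) = 0 := by
  induction m with
  | zero => rfl
  | succ m ih =>
    unfold sortG at ih ⊢
    rw [List.range_succ, List.flatMap_append, negs_append, ih, List.flatMap_singleton, negs_inner]

theorem run_inner (i c : ℕ) (v : ℕ → Bool) (hv : ∀ j < i, v j = decide (j + 1 ≤ c)) (p : ℕ)
    (hp : p ≤ i) :
    (∀ j < p, run (inner i p) v j = decide (j + 1 ≤ c + (if v i then 1 else 0))) ∧
    (∀ j, p ≤ j → j < i → run (inner i p) v j = decide (j + 1 ≤ c)) ∧
    run (inner i p) v i = (v i && decide (p ≤ c)) ∧
    ∀ j, i < j → run (inner i p) v j = v j := by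
  induction p with
  | zero =>
    refine ⟨fun j hj => absurd hj (by omega), fun j _ hj => hv j hj, ?_, fun j _ => rfl⟩
    simp [inner, run]
  | succ p ih =>
    obtain ⟨h1, h2, h3, h4⟩ := ih (by omega)
    have hrun : run (inner i (p + 1)) v = step (.cmp i p) (run (inner i p) v) := by
      unfold inner
      rw [List.range_succ, List.map_append, run_append]
      rfl
    have hpi : p ≠ i := by omega
    have hp2 := h2 p le_rfl (by omega)
    rw [hrun]
    refine ⟨fun j hj => ?_, fun j hj hj' => ?_, ?_, fun j hj => ?_⟩
    · by_cases hjp : j = p
      · subst hjp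
        simp only [step, if_neg hpi, if_true]
        rw [h3, hp2]
        cases v i with
        | true =>
          simp only [Bool.true_and, if_true]
          rw [Bool.eq_iff_iff]
          simp
          omega
        | false => simp
      · have h5 : j < p := by omega
        simp only [step, if_neg (show j ≠ i by omega), if_neg hjp]
        exact h1 j h5
    · simp only [step, if_neg (show j ≠ i by omega), if_neg (show j ≠ p by omega)]
      exact h2 j (by omega) hj'
    · simp only [step, if_true]
      rw [h3, hp2]
      cases v i with
      | true =>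
        rw [Bool.eq_iff_iff]
        simp
        omega
      | false => simp
    · simp only [step, if_neg (show j ≠ i by omega), if_neg (show j ≠ p by omega)]
      exact h4 j hj

theorem run_sortG (v : ℕ → Bool) (m : ℕ) :
    (∀ j < m, run (sortG m) v j = decide (j + 1 ≤ ∑ i ∈ range m, if v i then 1 else 0)) ∧
    ∀ j, m ≤ j → run (sortG m) v j = v j := by
  induction m with
  | zero => exact ⟨fun j hj => absurd hj (by omega), fun j _ => rfl⟩
  | succ m ih =>
    obtain ⟨h1, h2⟩ := ih
    have hrun : run (sortG (m + 1)) v = run (inner m m) (run (sortG m) v) := by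
      unfold sortG
      rw [List.range_succ, List.flatMap_append, run_append, List.flatMap_singleton]
    have hc : ∑ i ∈ range m, (if v i then 1 else 0) ≤ m := by
      calc ∑ i ∈ range m, (if v i then 1 else 0) ≤ ∑ i ∈ range m, 1 :=
            sum_le_sum fun i _ => by split_ifs <;> omega
        _ = m := by simp
    obtain ⟨k1, -, k3, k4⟩ := run_inner m (∑ i ∈ range m, if v i then 1 else 0) (run (sortG m) v) h1 m
      le_rfl
    rw [hrun, sum_range_succ]
    rw [h2 m le_rfl] at k1 k3
    refine ⟨fun j hj => ?_, fun j hj => ?_⟩
    · by_cases hjm : j = m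
      · subst hjm
        rw [k3]
        cases v j with
        | true =>
          rw [Bool.eq_iff_iff]
          simp
        | false =>
          simp only [Bool.false_and, Bool.false_eq_true, if_false, add_zero]
          symm
          rw [decide_eq_false_iff_not]
          omega
      · exact k1 j (by omega)
    · rw [k4 j (by omega)]
      exact h2 j (by omega)

/-- all wires of the gate are smaller than `m` -/
def Small (m : ℕ) : Gate ℕ → Prop
  | .cmp a b => a < m ∧ b < m
  | .neg a => a < m

theorem small_sortG (m : ℕ) : ∀ g ∈ sortG m, Small (m + 1) g := by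
  intro g hg
  unfold sortG inner at hg
  rw [List.mem_flatMap] at hg
  obtain ⟨i, hi, hg⟩ := hg
  rw [List.mem_map] at hg
  obtain ⟨j, hj, rfl⟩ := hg
  rw [List.mem_range] at hi hj
  exact ⟨by omega, by omega⟩

theorem confine (m : ℕ) (G : List (Gate ℕ)) (hG : ∀ g ∈ G, Small (m + 1) g) :
    (G.map (Gate.map fun a => Fin.ofNat (m + 1) a)).map (Gate.map Fin.val) = G := by
  rw [List.map_map]
  conv_rhs => rw [← List.map_id G]
  apply List.map_congr_left
  intro g hg
  have := hG g hg
  cases g with
  | cmp a b =>
    simp only [Function.comp, Gate.map, Fin.val_ofNat, id]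
    rw [Nat.mod_eq_of_lt this.1, Nat.mod_eq_of_lt this.2]
  | neg a =>
    simp only [Function.comp, Gate.map, Fin.val_ofNat, id]
    rw [Nat.mod_eq_of_lt this]

/-- at least `k` of the bits of `x` in `J` are one -/
def th {I : Type} (k : ℕ) (J : Finset I) (x : I → Bool) : Bool :=
  decide (k ≤ (J.filter fun i => x i = true).card)

theorem cmp_th {I : Type} (k : ℕ) (J : Finset I) : Cmp 0 (J.card + 1) (th k J) := by
  classical
  by_cases hk : k = 0
  · subst hk
    have h := (cmp_label (I := I) (.inr true)).mono (le_refl 0) (show 1 ≤ J.card + 1 by omega)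
    have e : (fun x : I → Bool => bit x (.inr true)) = th 0 J := by
      funext x
      simp [bit, th]
    rw [e] at h
    exact h
  by_cases hk2 : J.card < k
  · have h := (cmp_label (I := I) (.inr false)).mono (le_refl 0) (show 1 ≤ J.card + 1 by omega)
    have e : (fun x : I → Bool => bit x (.inr false)) = th k J := by
      funext x
      have h1 := card_filter_le J fun i => x i = true
      simp only [bit, th]
      rw [eq_comm, decide_eq_false_iff_not]
      omega
    rw [e] at h
    exact h
  set m := J.card with hm
  let e : J ≃ Fin m := J.equivFin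
  let lab : Fin (m + 1) → I ⊕ Bool := fun j =>
    if h : j.val < m then .inl (e.symm ⟨j.val, h⟩).1 else .inr false
  let G : List (Gate (Fin (m + 1))) := (sortG m).map (Gate.map fun a => Fin.ofNat (m + 1) a)
  let o : Fin (m + 1) := ⟨k - 1, by omega⟩
  have h := cmp_of_type lab G o
  have hn : negs G = 0 := by
    simp only [G]
    rw [negs_map, negs_sortG]
  rw [hn, Fintype.card_fin] at h
  have e2 : (fun x : I → Bool => run G (fun w => bit x (lab w)) o) = th k J := by
    funext x
    let v : ℕ → Bool := fun j => if h : j < m then x (e.symm ⟨j, h⟩).1 else false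
    have hv : ∀ w : Fin (m + 1), bit x (lab w) = v w.val := by
      intro w
      simp only [lab, v]
      split_ifs <;> rfl
    have h1 := (run_map Fin.val Fin.val_injective G v).1 o
    have h2 : (fun w : Fin (m + 1) => v w.val) = fun w => bit x (lab w) := by
      funext w
      rw [hv]
    rw [h2, confine m (sortG m) (small_sortG m)] at h1
    rw [← h1]
    have h3 := (run_sortG v m).1 (k - 1) (by omega)
    have ho : o.val = k - 1 := rfl
    rw [ho, h3]
    unfold th
    rw [decide_eq_decide]
    have h4 : ∑ i ∈ range m, (if v i then 1 else 0) = (J.filter fun i => x i = true).card := by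
      rw [card_filter, ← sum_coe_sort J fun i => if x i = true then 1 else 0, ← Fin.sum_univ_eq_sum_range
        (fun i => if v i then 1 else 0) m, ← Equiv.sum_comp e]
      apply sum_congr rfl
      intro i _
      have hvi : v (e i).val = x i.1 := by
        simp only [v]
        rw [dif_pos (e i).isLt]
        simp
      simp only [hvi]
    rw [h4]
    omega
  rw [e2] at h
  exact h

end Pool.Agent.L5helper35.CN
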