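import Pool.Agent.L5helper35.CN.Rail
import Pool.Agent.L5helper35.CN.Sort
import Pool.Agent.L5helper35.CN.CalcN

/-!
# As many NOT gates as input bits suffice
-/

namespace Pool.Agent.L5helper35.CN

open Finset

section

variable {I : Type} [Fintype I] [DecidableEq I]

/-- the wire of the doubled circuit in the slice `k` -/
def litk (l : I ⊕ Bool) (b : Bool) (k : ℕ) (x : I → Bool) : Bool :=
  if b then bit x l else
    match l with
    | .inl i => th k (univ.erase i) x
    | .inr c => !c

theorem cmp_litk (l : I ⊕ Bool) (b : Bool) (k : ℕ) : Cmp 0 (Fintype.card I + 1) (litk l b k) := by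
  cases b with
  | true => exact (cmp_label l).mono le_rfl (by omega)
  | false =>
    cases l with
    | inl i =>
      have h := cmp_th k (univ.erase i)
      refine h.mono le_rfl ?_
      have := card_le_univ (univ.erase i)
      omega
    | inr c => exact (cmp_label (.inr (!c))).mono le_rfl (by omega)

theorem litk_eq (l : I ⊕ Bool) (b : Bool) (k : ℕ) (x : I → Bool)
    (hk : (univ.filter fun i => x i = true).card = k) :
    litk l b k x = if b then bit x l else !bit x l := by
  cases b with
  | true => rfl
  | false =>
    cases l with
    | inr c => rfl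
    | inl i =>
      simp only [litk, bit, th, Bool.false_eq_true, if_false]
      have h1 : (univ.erase i).filter (fun i => x i = true) =
          (univ.filter fun i => x i = true).erase i := by
        ext j
        simp only [mem_filter, mem_erase, mem_univ, and_true, true_and]
      rw [h1]
      by_cases hx : x i = true
      · have h2 := card_erase_of_mem (show i ∈ univ.filter fun i => x i = true from
          mem_filter.2 ⟨mem_univ _, hx⟩)
        have h3 : 0 < (univ.filter fun i => x i = true).card :=
          card_pos.2 ⟨i, mem_filter.2 ⟨mem_univ _, hx⟩⟩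
        rw [h2, hx, Bool.not_true, decide_eq_false_iff_not]
        omega
      · rw [erase_eq_of_notMem (by simpa using hx), hk]
        have : x i = false := by simpa using hx
        rw [this]
        simp

/-- the term of the slice `k` -/
theorem cmp_term {W : Type} [Fintype W] [DecidableEq W] (lab : W → I ⊕ Bool)
    (G : List (Gate (W × Bool))) (hG : negs G = 0) (o : W × Bool) (k : ℕ) :
    CmpN 1 (if k < Fintype.card I then 1 else 0)
      ((2 * Fintype.card W + 2) * (Fintype.card I + 1)) (fun x =>
      (th k univ x && !th (k + 1) univ x) && run G (fun p => litk (lab p.1) p.2 k x) o) := by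
  have h1 := Cmp.subst G o (fun p => litk (lab p.1) p.2 k) (fun _ => 0)
    (fun _ => Fintype.card I + 1) (fun p => cmp_litk (lab p.1) p.2 k)
  rw [hG] at h1
  simp only [sum_const_zero, sum_const, card_univ, Fintype.card_prod, Fintype.card_bool,
    smul_eq_mul, add_zero] at h1
  have h2 := cmp_th (I := I) k univ
  rw [card_univ] at h2
  by_cases hk : k < Fintype.card I
  · rw [if_pos hk]
    have h3 := (cmp_th (I := I) (k + 1) univ).toN.not
    rw [card_univ] at h3
    refine (((h2.toN.mono (Nat.zero_le 1) le_rfl le_rfl).and h3).and
      (h1.toN.mono (Nat.zero_le 1) le_rfl le_rfl)).mono le_rfl (by omega) (le_of_eq ?_)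
    ring
  · rw [if_neg hk]
    refine CmpN.mono (r := 0) (t := 0)
      (S := (Fintype.card I + 1) + Fintype.card W * 2 * (Fintype.card I + 1))
      ?_ (Nat.zero_le 1) le_rfl (by nlinarith)
    have h4 := h2.toN.and h1.toN
    have e : (fun x : I → Bool => th k univ x && run G (fun p => litk (lab p.1) p.2 k x) o) =
        (fun x => (th k univ x && !th (k + 1) univ x) &&
          run G (fun p => litk (lab p.1) p.2 k x) o) := by
      funext x
      have h5 : th (k + 1) univ x = false := by
        unfold th
        rw [decide_eq_false_iff_not]
        have := card_le_univ (univ.filter fun i => x i = true)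
        omega
      rw [h5]
      simp
    rw [← e]
    exact h4

/-- **As many NOT gates as input bits suffice.** -/
theorem fischer (N : Circuit I) : ∃ N' : Circuit I, N'.nest ≤ 1 ∧
    negs N'.gates ≤ Fintype.card I ∧
    N'.wires ≤ 3 * (Fintype.card I + 1) ^ 2 * (N.wires + 1) ∧ ∀ x, N'.value x = N.value x := by
  obtain ⟨G, o, hG, hval⟩ := exists_rail N
  let f : ℕ → (I → Bool) → Bool := fun k x =>
    (th k univ x && !th (k + 1) univ x) && run G (fun p => litk (N.label p.1) p.2 k x) o
  have h1 := cmpN_any f 1 (fun k => if k < Fintype.card I then 1 else 0)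
    ((2 * Fintype.card (Fin N.wires) + 2) * (Fintype.card I + 1))
    (fun k => cmp_term N.label G hG o k) (Fintype.card I + 1)
  have h2 : ∑ k ∈ range (Fintype.card I + 1), (if k < Fintype.card I then 1 else 0) =
      Fintype.card I := by
    rw [sum_range_succ, if_neg (by omega), add_zero]
    have : ∑ k ∈ range (Fintype.card I), (if k < Fintype.card I then 1 else 0) =
        ∑ k ∈ range (Fintype.card I), 1 := by
      apply sum_congr rfl
      intro k hk
      rw [if_pos (mem_range.1 hk)]
    rw [this]
    simp
  rw [h2, Fintype.card_fin] at h1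
  obtain ⟨N', k0, k1, k2, k3⟩ := h1
  refine ⟨N', k0, k1, k2.trans ?_, fun x => ?_⟩
  · have h3 : 1 ≤ (Fintype.card I + 1) ^ 2 * (N.wires + 1) :=
      Nat.mul_pos (Nat.pow_pos (by omega)) (by omega)
    nlinarith
  · rw [k3 x, hval x]
    set k0 := (univ.filter fun i => x i = true).card with hk0
    have hth : ∀ k, (th k univ x && !th (k + 1) univ x) = decide (k = k0) := by
      intro k
      unfold th
      rw [← hk0, Bool.eq_iff_iff]
      simp only [Bool.and_eq_true, Bool.not_eq_true', decide_eq_true_eq, decide_eq_false_iff_not]
      omega
    have hk0' : k0 ≤ Fintype.card I := card_le_univ _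
    have hlit : ∀ p : Fin N.wires × Bool, litk (N.label p.1) p.2 k0 x =
        if p.2 then bit x (N.label p.1) else !bit x (N.label p.1) := fun p =>
      litk_eq (N.label p.1) p.2 k0 x hk0.symm
    rw [Bool.eq_iff_iff, List.any_eq_true]
    constructor
    · rintro ⟨k, -, hk⟩
      simp only [f] at hk
      rw [hth, Bool.and_eq_true, decide_eq_true_eq] at hk
      obtain ⟨rfl, hk⟩ := hk
      simp only [hlit] at hk
      exact hk
    · intro h
      refine ⟨k0, List.mem_range.2 (by omega), ?_⟩
      simp only [f]
      rw [hth, Bool.and_eq_true, decide_eq_true_eq]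
      refine ⟨rfl, ?_⟩
      simp only [hlit]
      exact h

end

end Pool.Agent.L5helper35.CN
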