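import Pool.Agent.L5helper35.CN.Nest
import Pool.Agent.L5helper35.CN.Cover
import Pool.Agent.L5helper35.CN.Calc

/-!
# Few NOT gates do not help for the disjunction of `L` copies of a monotone function
-/

namespace Pool.Agent.L5helper35.CN

open Finset

section

variable {I : Type} {L : ℕ}

/-- blocks `< i`: `s l`; block `i`: `z`; the other blocks: `0` -/
def full (s : Fin L → I → Bool) (i : ℕ) (z : I → Bool) : Fin L × I → Bool := fun q =>
  if q.1.val < i then s q.1 q.2 else if q.1.val = i then z q.2 else false

theorem full_succ (s : Fin L → I → Bool) (i : Fin L) :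
    full s i (s i) = full s (i + 1) (fun _ => false) := by
  funext q
  unfold full
  by_cases h1 : q.1.val < i.val
  · rw [if_pos h1, if_pos (by omega)]
  · rw [if_neg h1]
    by_cases h2 : q.1.val = i.val
    · rw [if_pos h2, if_pos (by omega)]
      have : q.1 = i := Fin.ext h2
      rw [this]
    · rw [if_neg h2, if_neg (by omega)]
      split_ifs <;> rfl

theorem full_congr (s s' : Fin L → I → Bool) (i : ℕ) (z : I → Bool)
    (h : ∀ l : Fin L, l.val < i → s l = s' l) : full s i z = full s' i z := by
  funext q
  unfold full
  by_cases h1 : q.1.val < i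
  · rw [if_pos h1, if_pos h1, h q.1 h1]
  · rw [if_neg h1, if_neg h1]

theorem full_mono (s : Fin L → I → Bool) (i : ℕ) (z z' : I → Bool)
    (h : ∀ e, z e = true → z' e = true) (q : Fin L × I) (hq : full s i z q = true) :
    full s i z' q = true := by
  unfold full at hq ⊢
  split_ifs at hq ⊢ with h1 h2
  · exact hq
  · exact h _ hq

theorem full_no (f : (I → Bool) → Bool) (h0 : f (fun _ => false) = false) (s : Fin L → I → Bool)
    (i : ℕ) (hs : ∀ l, f (s l) = false) (z : I → Bool) (hz : f z = false) (l : Fin L) :
    f (fun e => full s i z (l, e)) = false := by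
  unfold full
  dsimp only
  by_cases h1 : l.val < i
  · simp only [if_pos h1]
    exact hs l
  · simp only [if_neg h1]
    by_cases h2 : l.val = i
    · simp only [if_pos h2]
      exact hz
    · simp only [if_neg h2]
      exact h0

theorem full_yes (f : (I → Bool) → Bool) (s : Fin L → I → Bool) (i : Fin L) (z : I → Bool)
    (hz : f z = true) : ∃ l, f (fun e => full s i z (l, e)) = true := by
  refine ⟨i, ?_⟩
  unfold full
  simpa using hz

/-- the state at the beginning -/
def st {J : Type} (N : Circuit J) (E : J → Bool) : Fin N.wires → Bool :=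
  fun w => bit E (N.label w)

theorem st_mono {J : Type} (N : Circuit J) (E E' : J → Bool)
    (h : ∀ q, E q = true → E' q = true) (w : Fin N.wires) (hw : st N E w = true) :
    st N E' w = true := by
  unfold st at hw ⊢
  cases hl : N.label w with
  | inr b => rw [hl] at hw; exact hw
  | inl q =>
    rw [hl] at hw
    exact h q hw

theorem exists_index (N : Circuit (Fin L × I)) (ht : N.nest * negs N.gates < L)
    (s : Fin L → I → Bool) : ∃ i : Fin L, trace N.gates (st N (full s i fun _ => false)) =
      trace N.gates (st N (full s i (s i))) := by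
  classical
  let X : ℕ → Fin N.wires → Bool := fun i => st N (full s i fun _ => false)
  have hX : ∀ i, ∀ q, full s i (fun _ => false) q = true → full s (i + 1) (fun _ => false) q = true := by
    intro i q hq
    unfold full at hq ⊢
    by_cases h3 : q.1.val < i
    · rw [if_pos h3] at hq
      rw [if_pos (by omega)]
      exact hq
    · rw [if_neg h3] at hq
      split_ifs at hq
  have h1 := chain_nest N.gates X (fun i w => st_mono N _ _ (hX i) w) L
  have h2 : ((range L).filter fun i => trace N.gates (X i) ≠ trace N.gates (X (i + 1))).card <
      (range L).card := by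
    rw [card_range]
    exact h1.trans_lt ht
  have h3 : ∃ i ∈ range L, trace N.gates (X i) = trace N.gates (X (i + 1)) := by
    by_contra hcon
    push Not at hcon
    rw [filter_true_of_mem hcon] at h2
    omega
  obtain ⟨i, hi, h4⟩ := h3
  refine ⟨⟨i, mem_range.1 hi⟩, ?_⟩
  rw [full_succ s ⟨i, mem_range.1 hi⟩]
  exact h4

/-- the label of a wire of the circuit for the block `i` -/
def lab (N : Circuit (Fin L × I)) (s : Fin L → I → Bool) (i : Fin L)
    (c : Fin (negs N.gates) → Bool) : Fin N.wires ⊕ Fin (negs N.gates) → I ⊕ Bool
  | .inr z => .inr (!c z)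
  | .inl w => match N.label w with
    | .inr b => .inr b
    | .inl q => if q.1.val < i.val then .inr (s q.1 q.2)
        else if q.1.val = i.val then .inl q.2 else .inr false

theorem bit_lab (N : Circuit (Fin L × I)) (s : Fin L → I → Bool) (i : Fin L)
    (c : Fin (negs N.gates) → Bool) (z : I → Bool) :
    (fun w => bit z (lab N s i c w)) = Sum.elim (st N (full s i z)) fun z => !c z := by
  funext w
  cases w with
  | inr z => rfl
  | inl w =>
    simp only [lab, Sum.elim_inl, st]
    cases N.label w with
    | inr b => rfl
    | inl q =>
      simp only [bit, full]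
      split_ifs <;> rfl

variable [Fintype I]

/-- For every set `U` of zeros of `f` there are an index and values of the earlier blocks such that
for a fraction `1 / L` of `U` the bits at the NOT gates do not change. -/
theorem exists_prefix [DecidableEq I] (f : (I → Bool) → Bool) (N : Circuit (Fin L × I))
    (ht : N.nest * negs N.gates < L) (U : Finset (I → Bool)) (hU : ∀ v ∈ U, f v = false)
    (hne : U.Nonempty) : ∃ (i : Fin L) (s : Fin L → {v : I → Bool // f v = false})
      (V : Finset (I → Bool)), V ⊆ U ∧ (∀ v ∈ V, trace N.gates (st N (full (fun l => (s l).1) i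
        fun _ => false)) = trace N.gates (st N (full (fun l => (s l).1) i v))) ∧
      U.card ≤ L * V.card := by
  classical
  haveI : Nonempty U := hne.to_subtype
  let T : Fin L → Finset (Fin L → U) := fun i =>
    univ.filter fun s => trace N.gates (st N (full (fun l => (s l).1) i fun _ => false)) =
      trace N.gates (st N (full (fun l => (s l).1) i (s i).1))
  have h1 : Fintype.card (Fin L → U) ≤ ∑ i, (T i).card := by
    rw [← card_univ]
    refine le_trans (card_le_card ?_) card_biUnion_le
    intro s _
    obtain ⟨i, hi⟩ := exists_index N ht (fun l => (s l).1)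
    exact mem_biUnion.2 ⟨i, mem_univ _, mem_filter.2 ⟨mem_univ _, hi⟩⟩
  have h2 : ∃ i, Fintype.card (Fin L → U) ≤ L * (T i).card := by
    by_contra hcon
    push Not at hcon
    have hL : (univ : Finset (Fin L)).Nonempty := ⟨⟨0, by omega⟩, mem_univ _⟩
    have h3 : ∑ i, L * (T i).card < ∑ _i : Fin L, Fintype.card (Fin L → U) :=
      sum_lt_sum_of_nonempty hL fun i _ => hcon i
    rw [sum_const, card_univ, Fintype.card_fin, smul_eq_mul, ← mul_sum] at h3
    have h4 := Nat.mul_le_mul_left L h1
    omega
  obtain ⟨i, hi⟩ := h2
  obtain ⟨s, hs⟩ := exists_slice L (T i) i hi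
  refine ⟨i, fun l => ⟨(s l).1, hU _ (s l).2⟩,
    (univ.filter fun a : U => Function.update s i a ∈ T i).image Subtype.val, ?_, ?_, ?_⟩
  · intro v hv
    obtain ⟨a, -, rfl⟩ := mem_image.1 hv
    exact a.2
  · intro v hv
    obtain ⟨a, ha, rfl⟩ := mem_image.1 hv
    have h3 := (mem_filter.1 (mem_filter.1 ha).2).2
    rw [Function.update_self, full_congr (fun l => (Function.update s i a l).1) (fun l => (s l).1) i
      (fun _ => false) (fun l hl => by
        rw [Function.update_of_ne]; intro h; rw [h] at hl; omega),
      full_congr (fun l => (Function.update s i a l).1) (fun l => (s l).1) i a.1 (fun l hl => by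
        rw [Function.update_of_ne]; intro h; rw [h] at hl; omega)] at h3
    exact h3
  · rw [card_image_of_injective _ Subtype.val_injective]
    rwa [Fintype.card_coe] at hs

/-- **Few NOT gates do not help for the disjunction of `L` copies.** -/
theorem no_help (f : (I → Bool) → Bool)
    (hf : ∀ x y : I → Bool, (∀ i, x i = true → y i = true) → f x = true → f y = true)
    (N : Circuit (Fin L × I)) (hN : ComputesOr f N) (ht : N.nest * negs N.gates < L) :
    Cmp 0 (L * (Fintype.card I + 1) * (N.wires + negs N.gates) + 1) f := by
  classical
  by_cases h0 : f (fun _ => false) = false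
  swap
  · have h1 : (fun x : I → Bool => bit x (.inr true)) = f := by
      funext x
      rw [Bool.not_eq_false] at h0
      exact (hf (fun _ => false) x (fun i hi => absurd hi (by simp)) h0).symm
    rw [← h1]
    exact (cmp_label (.inr true)).mono le_rfl (by omega)
  let No : Finset (I → Bool) := univ.filter fun v => f v = false
  let H : Type := Fin L × (Fin L → {v : I → Bool // f v = false})
  let cov : H → (I → Bool) → Prop := fun p v =>
    trace N.gates (st N (full (fun l => (p.2 l).1) p.1 fun _ => false)) =
      trace N.gates (st N (full (fun l => (p.2 l).1) p.1 v))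
  have hcov : ∀ U ⊆ No, U.Nonempty → ∃ x : H, ∃ V ⊆ U, (∀ v ∈ V, cov x v) ∧
      U.card ≤ L * V.card := by
    intro U hU hne
    obtain ⟨i, s, V, h1, h2, h3⟩ := exists_prefix f N ht U
      (fun v hv => (mem_filter.1 (hU hv)).2) hne
    exact ⟨(i, s), V, h1, h2, h3⟩
  have hcard : No.card ≤ 2 ^ Fintype.card I := by
    have h1 := card_le_univ No
    rwa [Fintype.card_fun, Fintype.card_bool] at h1
  obtain ⟨hs, hlen, hcover⟩ := exists_cover cov L (by omega) No hcov _ hcard
  -- the functions
  let lo : H → Fin N.wires → Bool := fun p => st N (full (fun l => (p.2 l).1) p.1 fun _ => false)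
  let c : H → Fin (negs N.gates) → Bool := fun p z => (trace N.gates (lo p)).getD z false
  let zs : List (Fin (negs N.gates)) := List.finRange _
  have hzs : zs.Nodup := List.nodup_finRange _
  have hzl : zs.length = negs N.gates := List.length_finRange
  have hc : ∀ p, trace N.gates (lo p) = zs.map (c p) := by
    intro p
    apply List.ext_getElem
    · rw [List.length_map, hzl, length_trace]
    · intro k h1 h2
      simp only [zs, c, List.getElem_map, List.getElem_finRange]
      rw [List.getD_eq_getElem?_getD, List.getElem?_eq_getElem (by simpa using h1)]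
      rfl
  let g : H → (I → Bool) → Bool := fun p z =>
    run (hGates (c p) N.gates zs N.out)
      (fun w => bit z (lab N (fun l => (p.2 l).1) p.1 (c p) w)) (.inl N.out)
  have hg : ∀ p z, g p z = run (hGates (c p) N.gates zs N.out)
      (Sum.elim (st N (full (fun l => (p.2 l).1) p.1 z)) fun z => !c p z) (.inl N.out) := by
    intro p z
    simp only [g]
    rw [bit_lab]
  have hgc : ∀ p, Cmp 0 (N.wires + negs N.gates) (g p) := by
    intro p
    have h := cmp_of_type (lab N (fun l => (p.2 l).1) p.1 (c p)) (hGates (c p) N.gates zs N.out)
      (.inl N.out)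
    rw [negs_hGates, Fintype.card_sum, Fintype.card_fin, Fintype.card_fin] at h
    exact h
  have hall := Cmp.all hs g fun p _ => hgc p
  have e : (fun x => hs.all fun p => g p x) = f := by
    funext E
    rw [Bool.eq_iff_iff, List.all_eq_true]
    constructor
    · intro h
      by_contra hE
      rw [Bool.not_eq_true] at hE
      obtain ⟨p, hp, hpE⟩ := hcover E (mem_filter.2 ⟨mem_univ _, hE⟩)
      have h1 := h p hp
      rw [hg] at h1
      have h3 := hGates_false (c p) N.gates zs N.out hzs hzl
        (st N (full (fun l => (p.2 l).1) p.1 E)) (by rw [← hc p]; exact hpE.symm) (by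
          have h4 : N.value (full (fun l => (p.2 l).1) p.1 E) = false := by
            rw [← Bool.not_eq_true, hN]
            rintro ⟨l, hl⟩
            rw [full_no f h0 _ _ (fun l => (p.2 l).2) E hE l] at hl
            exact absurd hl (by simp)
          exact h4)
      rw [h3] at h1
      exact absurd h1 (by simp)
    · intro h p _
      rw [hg]
      apply hGates_true (c p) N.gates zs N.out hzs hzl (lo p) _ _ (hc p)
      · have h1 : N.value (full (fun l => (p.2 l).1) p.1 E) = true := by
          rw [hN]
          exact full_yes f _ _ _ h
        exact h1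
      · apply st_mono
        apply full_mono
        intro e he
        simp at he
  rw [e] at hall
  exact hall.mono le_rfl (Nat.add_le_add_right (Nat.mul_le_mul_right _ hlen) 1)

end

end Pool.Agent.L5helper35.CN
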