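import Pool.Agent.L5helper12.CCExp
import Pool.Agent.L5helper35.CN.Calc

/-!
# Monotone comparator circuits for unsolvable systems (the theorem of helper12, for our circuits)
-/

namespace Pool.Agent.L5helper35.CN

open Finset Pool.Agent.L5helper12.CC

theorem log_bound (S : ℕ) (hS : 1 ≤ S) : ((Nat.log 2 S + 1 : ℕ) : ℝ) ≤ 2 * (1 + Real.log S) := by
  have h1 : (2 : ℝ) ^ (Nat.log 2 S) ≤ S := by
    exact_mod_cast Nat.pow_log_le_self 2 (by omega)
  have h2 : (Nat.log 2 S : ℝ) * Real.log 2 ≤ Real.log S := by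
    rw [← Real.log_pow]
    exact Real.log_le_log (by positivity) h1
  have h3 : (0.5 : ℝ) < Real.log 2 := by
    have := Real.log_two_gt_d9
    linarith
  have h4 : (0 : ℝ) ≤ Nat.log 2 S := Nat.cast_nonneg _
  push_cast
  nlinarith

theorem num_bound (a q t : ℕ) (L : ℝ) (h : (t : ℝ) ≤ 2 * (1 + L)) :
    (((25 * (a * t * q ^ 3)) ^ 3 : ℕ) : ℝ) ≤ (50 * a * q ^ 3) ^ 3 * (1 + L) ^ 3 := by
  rw [← mul_pow]
  push_cast
  apply pow_le_pow_left₀ (by positivity)
  have h3 : (0 : ℝ) ≤ 25 * a * q ^ 3 := by positivity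
  have h4 := mul_le_mul_of_nonneg_left h h3
  calc (25 * (a * t * q ^ 3) : ℝ) = 25 * a * q ^ 3 * t := by ring
    _ ≤ 25 * a * q ^ 3 * (2 * (1 + L)) := h4
    _ = _ := by ring

theorem num_bound' (a q t : ℕ) (ha : 1 ≤ a) (hq : 1 ≤ q) (ht : 1 ≤ t) :
    7 * ((2 * a * t + 1) * q ^ 3) + 4 ≤ 25 * (a * t * q ^ 3) := by
  have h2 : 1 ≤ a * t := Nat.mul_pos ha ht
  have h3 : (2 * a * t + 1) * q ^ 3 ≤ (3 * (a * t)) * q ^ 3 := by
    apply Nat.mul_le_mul_right
    have : 2 * a * t = 2 * (a * t) := by ring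
    omega
  have h4 : 1 ≤ a * t * q ^ 3 := Nat.mul_pos h2 (Nat.pow_pos hq)
  have h5 : 3 * (a * t) * q ^ 3 = 3 * (a * t * q ^ 3) := by ring
  omega

theorem num_bound'' (a q t : ℕ) (hq : 1 ≤ q) : (2 * a * t) * q ≤ (2 * a * t + 1) * q ^ 3 := by
  apply Nat.mul_le_mul (by omega)
  exact Nat.le_self_pow (by norm_num) q

/-- the embedding of a lifted system into a large set of equations -/
theorem embed {n m M Q K : ℕ} (hK : Fintype.card (JJ M Q) = K) (hmK : m * Q ≤ K)
    (F : Finset (Eqn n)) (hF : (7 * K + 4) ^ 3 < F.card) :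
    ∃ (ι : Lb m M Q → Fin n) (ζ : Fin 4 → Fin n) (e : JJ M Q → Eqn n),
      Function.Injective ι ∧ Function.Injective ζ ∧ (∀ i l, ι l ≠ ζ i) ∧
      (∀ k, ι (Sum.inl k) ∈ (e k).1.1) ∧
      (∀ k, ∀ v ∈ (e k).1.1, v ≠ ι (Sum.inl k) → ∀ l, ι l ≠ v) ∧ (∀ k, e k ∈ F) := by
  classical
  have h1 := card_le_supp F
  have h2 : 7 * K + 4 < (supp F).card := by
    by_contra hcon
    push Not at hcon
    have := Nat.pow_le_pow_left hcon 3
    omega
  have hn : (supp F).card ≤ n := by simpa using card_le_univ (supp F)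
  obtain ⟨e', v', he', hv', hpr⟩ := exists_private F K (by omega)
  let φ : JJ M Q ≃ Fin K := Fintype.equivFinOfCardEq hK
  let T0 : Finset (Fin n) := univ.biUnion fun k : Fin K => (e' k).1.1
  have hT0 : T0.card ≤ K * 3 := by
    have := card_biUnion_le_card_mul (univ : Finset (Fin K)) (fun k => (e' k).1.1) 3
      (fun k _ => (e' k).1.2.le)
    simpa using this
  have hemb : Nonempty (((JJ M Q ⊕ ((Fin m × Fin Q) × Fin 3)) ⊕ Fin 4) ↪ {v : Fin n // v ∉ T0}) := by
    apply Function.Embedding.nonempty_of_card_le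
    rw [Fintype.card_subtype_compl, Fintype.card_coe, Fintype.card_fin, Fintype.card_sum,
      Fintype.card_sum, hK, Fintype.card_prod, Fintype.card_prod, Fintype.card_fin, Fintype.card_fin,
      Fintype.card_fin, Fintype.card_fin]
    omega
  obtain ⟨g⟩ := hemb
  have hT : ∀ k, ∀ v ∈ (e' k).1.1, v ∈ T0 := fun k v hv => mem_biUnion.2 ⟨k, mem_univ _, hv⟩
  have hg : ∀ l, ((g l : {v : Fin n // v ∉ T0}) : Fin n) ∉ T0 := fun l => (g l).2
  refine ⟨Sum.elim (fun k => v' (φ k)) (fun l => (g (Sum.inl l) : Fin n)),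
    fun i => (g (Sum.inr i) : Fin n), fun k => e' (φ k), ?_, ?_, ?_, ?_, ?_, ?_⟩
  · rintro (k | l) (k' | l') hh
    · simp only [Sum.elim_inl] at hh
      have h5 := hpr (φ k) (φ k') (hh ▸ hv' (φ k'))
      rw [φ.injective h5]
    · simp only [Sum.elim_inl, Sum.elim_inr] at hh
      exact absurd (hh ▸ hT _ _ (hv' (φ k))) (hg _)
    · simp only [Sum.elim_inl, Sum.elim_inr] at hh
      exact absurd (hh ▸ hT _ _ (hv' (φ k'))) (hg _)
    · simp only [Sum.elim_inr] at hh
      have := g.injective (Subtype.ext hh)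
      rw [Sum.inl_injective this]
  · intro i j hh
    have := g.injective (Subtype.ext hh)
    exact Sum.inr_injective this
  · rintro i (k | l) hh
    · simp only [Sum.elim_inl] at hh
      exact absurd (hh ▸ hT _ _ (hv' (φ k))) (hg _)
    · simp only [Sum.elim_inr] at hh
      have := g.injective (Subtype.ext hh)
      simp at this
  · intro k
    exact hv' (φ k)
  · rintro k v hv hne (k' | l) hh
    · simp only [Sum.elim_inl] at hh hne
      apply hne
      rw [← hh] at hv
      have h5 := hpr (φ k') (φ k) hv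
      rw [← hh, h5]
    · simp only [Sum.elim_inr] at hh
      exact absurd (hh ▸ hT _ _ hv) (hg _)
  · intro k
    exact he' (φ k)


/-- the lower bound for monotone circuits -/
theorem monotone_lower :
    ∃ C : ℝ, 0 < C ∧ ∀ (n : ℕ) (D : Finset (Eqn n)) (N : Pool.Agent.L5helper12.CC.Circuit (Eqn n)),
      (∀ w, (∃ e, ∀ E, N.label w E = E e) ∨
        (∀ E E', (∀ e ∈ D, E e = E' e) → N.label w E = N.label w E')) →
      (∀ E, N.value E = true ↔ ¬ Solvable E) →
      (Dᶜ.card : ℝ) ≤ C * (1 + Real.log N.wires) ^ 3 := by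
  have hc0 : 1 ≤ c0 := by unfold c0; norm_num
  have hQ : 1 ≤ QQ := by
    have : 0 < QQ := by unfold QQ; positivity
    omega
  refine ⟨(50 * c0 * QQ ^ 3) ^ 3, by positivity, ?_⟩
  intro n D N hN hval
  have hS : 1 ≤ N.wires := by
    have := N.out.isLt
    omega
  by_contra hcon
  push Not at hcon
  set t : ℕ := Nat.log 2 N.wires + 1 with ht
  have ht1 : 1 ≤ t := by omega
  have htl : (t : ℝ) ≤ 2 * (1 + Real.log N.wires) := log_bound _ hS
  obtain ⟨c, β, hne, hb, hun⟩ := exists_sys t ht1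
  set K : ℕ := (2 * c0 * t + 1) * QQ ^ 3 with hK
  have hcard : Fintype.card (JJ (2 * c0 * t + 1) QQ) = K := by
    rw [Fintype.card_prod, Fintype.card_fun, Fintype.card_fin, Fintype.card_fin, Fintype.card_fin]
  have hbig : (7 * K + 4) ^ 3 < (Dᶜ).card := by
    have h1 : 7 * K + 4 ≤ 25 * (c0 * t * QQ ^ 3) := num_bound' c0 QQ t hc0 hQ ht1
    have h2 := num_bound c0 QQ t (Real.log N.wires) htl
    have h3 : (((25 * (c0 * t * QQ ^ 3)) ^ 3 : ℕ) : ℝ) < (Dᶜ.card : ℝ) := h2.trans_lt hcon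
    have h4 : (25 * (c0 * t * QQ ^ 3)) ^ 3 < Dᶜ.card := by exact_mod_cast h3
    exact (Nat.pow_le_pow_left h1 3).trans_lt h4
  obtain ⟨ι, ζ, e, hι, hζ, hζι, he1, he2, heF⟩ := embed hcard (num_bound'' c0 QQ t hQ) (Dᶜ) hbig
  have key := wires_ge c β (fun k => (e k).2 + bz (β k.1)) ι e (2 * t) t hQ hne hb hun hι ζ hζ hζι
    he1 he2 (fun k => rfl) D (fun k => mem_compl.1 (heF k)) N hN hval
  have h4 := two_pow_le t N.wires ht1 key
  have h5 := Nat.lt_pow_succ_log_self (b := 2) (by norm_num) N.wires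
  have h6 : 2 ^ t = 2 ^ (Nat.log 2 N.wires).succ := by
    rw [ht]
  omega

/-- the comparators -/
def pairs {W : Type} : List (Gate W) → List (W × W)
  | [] => []
  | .cmp a b :: G => (a, b) :: pairs G
  | .neg _ :: G => pairs G

theorem foldl_pairs {m : ℕ} (G : List (Gate (Fin m))) (hG : negs G = 0) : ∀ v : Fin m → Bool,
    (pairs G).foldl Pool.Agent.L5helper12.CC.compare v = run G v := by
  induction G with
  | nil => intro v; rfl
  | cons g G ih =>
    intro v
    cases g with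
    | cmp a b =>
      simp only [pairs, List.foldl_cons, run]
      rw [ih hG]
      rfl
    | neg a => simp [negs] at hG

/-- The lower bound for functions computed without NOT gates. -/
theorem lower_cmp : ∃ C : ℝ, 0 < C ∧ ∀ (n S : ℕ) (f : (Eqn n → Bool) → Bool), Cmp 0 S f →
    (∀ E, f E = true ↔ ¬ Solvable E) → ((n.choose 3 * 2 : ℕ) : ℝ) ≤ C * (1 + Real.log S) ^ 3 := by
  obtain ⟨C, hC, h⟩ := monotone_lower
  refine ⟨C, hC, fun n S f ⟨N, h1, h2, h3⟩ hf => ?_⟩
  have h4 := h n ∅ ⟨N.wires, fun w E => bit E (N.label w), pairs N.gates, N.out⟩ ?_ ?_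
  · have hS : 1 ≤ N.wires := by
      have := N.out.isLt
      omega
    have h5 : Real.log N.wires ≤ Real.log S :=
      Real.log_le_log (by exact_mod_cast hS) (by exact_mod_cast h2)
    have h6 : 0 ≤ Real.log N.wires := Real.log_natCast_nonneg _
    have h7 : (((∅ : Finset (Eqn n))ᶜ).card) = n.choose 3 * 2 := by
      rw [compl_empty, card_univ, Fintype.card_prod, Fintype.card_finset_len, Fintype.card_fin,
        ZMod.card]
    rw [h7] at h4
    refine h4.trans ?_
    apply mul_le_mul_of_nonneg_left _ hC.le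
    apply pow_le_pow_left₀ (by positivity)
    dsimp only
    linarith
  · intro w
    dsimp only
    cases N.label w with
    | inl e => exact Or.inl ⟨e, fun E => rfl⟩
    | inr b => exact Or.inr fun _ _ _ => rfl
  · intro E
    rw [← hf E, ← h3 E]
    unfold Pool.Agent.L5helper12.CC.Circuit.value Circuit.value
    dsimp only
    rw [foldl_pairs N.gates (by omega)]

end Pool.Agent.L5helper35.CN
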