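import Pool.Agent.L5helper35.CN.Gen
import Pool.Agent.L5helper35.CN.Xor

/-!
# Comparator circuits with few NOT gates for unsolvable systems of equations
-/

namespace Pool.Agent.L5helper35.CN

open Finset Pool.Agent.L5helper12.CC

open Classical in
/-- the system is unsolvable -/
noncomputable def unsat (n : ℕ) (E : Eqn n → Bool) : Bool := decide (¬ Solvable E)

theorem unsat_mono (n : ℕ) (x y : Eqn n → Bool) (h : ∀ i, x i = true → y i = true)
    (hx : unsat n x = true) : unsat n y = true := by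
  classical
  unfold unsat at hx ⊢
  rw [decide_eq_true_eq] at hx ⊢
  rintro ⟨X, hX⟩
  exact hx ⟨X, fun e he => hX e (h e he)⟩

theorem card_eqn (n : ℕ) : Fintype.card (Eqn n) = n.choose 3 * 2 := by
  rw [Fintype.card_prod, Fintype.card_finset_len, Fintype.card_fin, ZMod.card]

theorem choose_le_cube (n : ℕ) : n.choose 3 * 2 ≤ n ^ 3 := by
  have h3 : n.choose 3 * 6 ≤ n ^ 3 := by
    have h4 : Nat.factorial 3 = 6 := rfl
    rw [mul_comm, ← h4, ← Nat.descFactorial_eq_factorial_mul_choose]
    exact Nat.descFactorial_le_pow n 3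
  omega

/-- from cubes to linear bounds -/
theorem numeric (C : ℝ) (hC : 0 < C) : ∃ C' : ℝ, 0 < C' ∧ ∀ n L S t : ℕ, 1 ≤ S → t < L →
    ((n.choose 3 * 2 : ℕ) : ℝ) ≤
      C * (1 + Real.log ((L * (n.choose 3 * 2 + 1) * (S + t) + 1 : ℕ) : ℝ)) ^ 3 →
    (n : ℝ) ≤ C' * (1 + Real.log (S * L)) := by
  set c1 : ℝ := 1 + 27 * C / 2 with hc1
  have hc1p : 1 ≤ c1 := by
    rw [hc1]
    linarith
  have hlog1 : 0 ≤ Real.log (6 * c1) := Real.log_nonneg (by linarith)
  refine ⟨6 * c1 + 2 + 6 * c1 * Real.log (6 * c1) + 4 * c1, by positivity, ?_⟩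
  intro n L S t hS ht h
  have hL : 1 ≤ L := by omega
  have hSL : (1 : ℝ) ≤ S * L := by
    have : 1 ≤ S * L := Nat.mul_pos hS hL
    exact_mod_cast this
  have hΛ : 0 ≤ Real.log (S * L) := Real.log_nonneg hSL
  set Λ := Real.log (S * L) with hΛd
  by_cases hn : n < 3
  · have h1 : (n : ℝ) ≤ 2 := by
      have : n ≤ 2 := by omega
      exact_mod_cast this
    have h2 : (2 : ℝ) ≤ 6 * c1 + 2 + 6 * c1 * Real.log (6 * c1) + 4 * c1 := by
      have : 0 ≤ 6 * c1 * Real.log (6 * c1) := by positivity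
      linarith
    nlinarith
  · push Not at hn
    have hm : Real.log ((L * (n.choose 3 * 2 + 1) * (S + t) + 1 : ℕ) : ℝ) ≤
        2 + 3 * Real.log (n + 1) + 2 * Λ := by
      have h1 : L * (n.choose 3 * 2 + 1) * (S + t) + 1 ≤ 3 * ((n + 1) ^ 3 * ((S * L) * (S * L))) := by
        have h2 : S + t ≤ 2 * (S * L) := by
          have h3 : S ≤ S * L := Nat.le_mul_of_pos_right _ hL
          have h4 : L ≤ S * L := Nat.le_mul_of_pos_left _ hS
          omega
        have h9 : n.choose 3 * 2 + 1 ≤ (n + 1) ^ 3 := by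
          have h10 := choose_le_cube n
          have h11 : n ^ 3 + 1 ≤ (n + 1) ^ 3 := by
            have : (n + 1) ^ 3 = n ^ 3 + 3 * n ^ 2 + 3 * n + 1 := by ring
            omega
          omega
        have h5 : L * (n.choose 3 * 2 + 1) * (S + t) ≤ L * (n + 1) ^ 3 * (2 * (S * L)) :=
          Nat.mul_le_mul (Nat.mul_le_mul_left _ h9) h2
        have h6 : L * (n + 1) ^ 3 * (2 * (S * L)) ≤ 2 * ((n + 1) ^ 3 * ((S * L) * (S * L))) := by
          have h7 : L * (n + 1) ^ 3 * (2 * (S * L)) = 2 * ((n + 1) ^ 3 * (L * (S * L))) := by ring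
          rw [h7]
          apply Nat.mul_le_mul_left
          apply Nat.mul_le_mul_left
          exact Nat.mul_le_mul_right _ (Nat.le_mul_of_pos_left _ hS)
        have h8 : 1 ≤ (n + 1) ^ 3 * ((S * L) * (S * L)) :=
          Nat.mul_pos (Nat.pow_pos (by omega)) (Nat.mul_pos (Nat.mul_pos hS hL) (Nat.mul_pos hS hL))
        omega
      have h2 : ((L * (n.choose 3 * 2 + 1) * (S + t) + 1 : ℕ) : ℝ) ≤
          3 * ((n + 1) ^ 3 * ((S * L) * (S * L))) := by
        exact_mod_cast h1
      have h3 : Real.log (3 * ((n + 1 : ℝ) ^ 3 * ((S * L : ℝ) * (S * L)))) =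
          Real.log 3 + (3 * Real.log (n + 1) + (Λ + Λ)) := by
        have hn1 : (n + 1 : ℝ) ≠ 0 := by positivity
        have hsl : (S * L : ℝ) ≠ 0 := by positivity
        rw [Real.log_mul (by norm_num) (by positivity), Real.log_mul (by positivity) (by positivity),
          Real.log_mul hsl hsl, Real.log_pow]
        norm_num
        rfl
      have h4 : Real.log 3 ≤ 2 := by
        have := Real.log_le_sub_one_of_pos (by norm_num : (0 : ℝ) < 3)
        linarith
      have h5 := Real.log_le_log (by positivity) h2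
      rw [h3] at h5
      linarith
    have h1 : 2 * (n : ℝ) ^ 3 ≤ 27 * ((n.choose 3 * 2 : ℕ) : ℝ) := by
      have h2 : n.choose 3 * 6 = n * (n - 1) * (n - 2) := by
        have h4 : Nat.factorial 3 = 6 := rfl
        rw [mul_comm, ← h4, ← Nat.descFactorial_eq_factorial_mul_choose]
        simp [Nat.descFactorial]
        ring
      have h3 : ((n.choose 3 * 6 : ℕ) : ℝ) = n * (n - 1) * (n - 2) := by
        rw [h2]
        push_cast [Nat.cast_sub (show 1 ≤ n by omega), Nat.cast_sub (show 2 ≤ n by omega)]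
        ring
      have h4 : ((n.choose 3 * 2 : ℕ) : ℝ) = n * (n - 1) * (n - 2) / 3 := by
        rw [← h3]
        push_cast
        ring
      rw [h4]
      have h5 : (3 : ℝ) ≤ n := by exact_mod_cast hn
      nlinarith [mul_nonneg (mul_nonneg (by linarith : (0 : ℝ) ≤ n) (by linarith : (0 : ℝ) ≤ n - 3))
        (by linarith : (0 : ℝ) ≤ n), mul_nonneg (by linarith : (0 : ℝ) ≤ n)
        (by linarith : (0 : ℝ) ≤ n - 3)]
    set R : ℝ := 1 + (2 + 3 * Real.log (n + 1) + 2 * Λ) with hR
    have hlogn : 0 ≤ Real.log ((n : ℝ) + 1) := Real.log_nonneg (by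
      have : (0 : ℝ) ≤ n := Nat.cast_nonneg n
      linarith)
    have hR0 : 0 ≤ R := by
      rw [hR]
      positivity
    have hlog0 : 0 ≤ Real.log ((L * (n.choose 3 * 2 + 1) * (S + t) + 1 : ℕ) : ℝ) :=
      Real.log_natCast_nonneg _
    have h2 : (n : ℝ) ^ 3 ≤ (c1 * R) ^ 3 := by
      have h3 : C * (1 + Real.log ((L * (n.choose 3 * 2 + 1) * (S + t) + 1 : ℕ) : ℝ)) ^ 3 ≤
          C * R ^ 3 := by
        apply mul_le_mul_of_nonneg_left _ hC.le
        apply pow_le_pow_left₀ (by positivity)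
        rw [hR]
        linarith
      have h4 : 27 * C / 2 ≤ c1 ^ 3 := by
        have : c1 ≤ c1 ^ 3 := le_self_pow₀ hc1p (by norm_num)
        rw [hc1] at this ⊢
        linarith
      have h5 : (n : ℝ) ^ 3 ≤ 27 * C / 2 * R ^ 3 := by
        have := h.trans h3
        linarith
      rw [mul_pow]
      exact h5.trans (mul_le_mul_of_nonneg_right h4 (by positivity))
    have h3 : (n : ℝ) ≤ c1 * R := le_of_pow_le_pow_left₀ (by norm_num) (by positivity) h2
    have h4 : Real.log (n + 1) ≤ (n + 1) / (6 * c1) + Real.log (6 * c1) := by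
      have h5 : 0 < (n + 1 : ℝ) / (6 * c1) := by positivity
      have h6 := Real.log_le_sub_one_of_pos h5
      rw [Real.log_div (by positivity) (by positivity)] at h6
      linarith
    have h5 : c1 * (3 * Real.log (n + 1)) ≤ (n + 1) / 2 + 3 * c1 * Real.log (6 * c1) := by
      have h6 := mul_le_mul_of_nonneg_left h4 (by linarith : (0 : ℝ) ≤ 3 * c1)
      have h7 : 3 * c1 * ((n + 1) / (6 * c1) + Real.log (6 * c1)) =
          (n + 1) / 2 + 3 * c1 * Real.log (6 * c1) := by
        field_simp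
        ring
      linarith
    have h6 : (n : ℝ) ≤ 6 * c1 + 1 + 6 * c1 * Real.log (6 * c1) + 4 * c1 * Λ := by
      rw [hR] at h3
      nlinarith
    have h7 : 0 ≤ (6 * c1 + 2 + 6 * c1 * Real.log (6 * c1)) * Λ := by positivity
    nlinarith

/-- **Few NOT gates do not help.** -/
theorem few_negations : ∃ C : ℝ, 0 < C ∧ ∀ (n L : ℕ) (N : Circuit (Fin L × Eqn n)),
    ComputesOr (unsat n) N → N.nest * negs N.gates < L →
      (n : ℝ) ≤ C * (1 + Real.log (N.wires * L)) := by
  obtain ⟨C, hC, h⟩ := lower_cmp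
  obtain ⟨C', hC', h'⟩ := numeric C hC
  refine ⟨C', hC', fun n L N hN ht => ?_⟩
  have hf := no_help (unsat n) (unsat_mono n) N hN ht
  have hS : 1 ≤ N.wires := by
    have := N.out.isLt
    omega
  have ht' : negs N.gates < L := by
    by_cases h0 : negs N.gates = 0
    · omega
    · have h1 : 1 ≤ N.nest := nesting_pos _ h0 _
      have h2 : negs N.gates ≤ N.nest * negs N.gates := Nat.le_mul_of_pos_left _ h1
      omega
  rw [card_eqn] at hf
  exact h' n L N.wires (negs N.gates) hS ht' (h n _ (unsat n) hf fun E => by simp [unsat])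

end Pool.Agent.L5helper35.CN
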