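import Pool.Agent.L5helper35.CN.CalcN

/-!
# The number of NOT gates which a function needs
-/

namespace Pool.Agent.L5helper35.CN

open Finset

section

variable {I : Type}

/-- the inputs `X 0, X 1, ...` increase -/
def Chain {I : Type} (X : ℕ → I → Bool) : Prop := ∀ i e, X i e = true → X (i + 1) e = true

/-- the number of drops of `f` along the first `k` steps of the sequence `X` -/
def dropsAlong {I : Type} (f : (I → Bool) → Bool) (X : ℕ → I → Bool) (k : ℕ) : ℕ :=
  ((range k).filter fun i => f (X i) = true ∧ f (X (i + 1)) = false).card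

theorem drops_le (N : Circuit I) (X : ℕ → I → Bool) (hX : Chain X) (k : ℕ) :
    dropsAlong N.value X k ≤ negs N.gates := by
  let Y : ℕ → Fin N.wires → Bool := fun i w => bit (X i) (N.label w)
  have h0 : ∑ i ∈ range k, drops (Y i) (Y (i + 1)) ≤ 0 := by
    apply le_of_eq
    apply sum_eq_zero
    intro i _
    unfold drops
    apply sum_eq_zero
    intro w _
    unfold dn
    rw [if_neg]
    rintro ⟨h1, h2⟩
    simp only [Y] at h1 h2
    cases hw : N.label w with
    | inr b =>
      rw [hw] at h1 h2
      simp only [bit] at h1 h2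
      rw [h1] at h2
      exact absurd h2 (by simp)
    | inl q =>
      rw [hw] at h1 h2
      simp only [bit] at h1 h2
      rw [hX i q h1] at h2
      exact absurd h2 (by simp)
  obtain ⟨-, h1⟩ := chain_count N.gates k 0 Y h0
  rw [zero_add] at h1
  refine le_trans ?_ h1
  unfold dropsAlong
  rw [card_filter]
  apply sum_le_sum
  intro i _
  exact single_le_sum (f := fun w => dn (run N.gates (Y i) w) (run N.gates (Y (i + 1)) w))
    (fun _ _ => Nat.zero_le _) (mem_univ N.out)

theorem Cmp.any {α : Type} (ks : List α) (f : α → (I → Bool) → Bool)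
    (h : ∀ k ∈ ks, ∃ S, Cmp 0 S (f k)) : ∃ S, Cmp 0 S (fun x => ks.any fun k => f k x) := by
  induction ks with
  | nil => exact ⟨1, by simpa [bit] using cmp_label (I := I) (.inr false)⟩
  | cons a ks ih =>
    obtain ⟨S, hS⟩ := h a (by simp)
    obtain ⟨S', hS'⟩ := ih fun k hk => h k (by simp [hk])
    exact ⟨S + S', by simpa using hS.or hS'⟩

variable [Fintype I] [DecidableEq I]

/-- monotone functions need no NOT gates -/
theorem cmp_monotone (g : (I → Bool) → Bool)
    (hg : ∀ x y : I → Bool, (∀ i, x i = true → y i = true) → g x = true → g y = true) :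
    ∃ S, Cmp 0 S g := by
  classical
  let ys : List (I → Bool) := (univ.filter fun y => g y = true).toList
  have h1 : ∀ y ∈ ys, ∃ S, Cmp 0 S (fun x => (univ.filter fun i => y i = true).toList.all fun i =>
      bit x (.inl i)) := fun y _ =>
    ⟨_, Cmp.all _ (fun i x => bit x (.inl i)) fun i _ => cmp_label (.inl i)⟩
  obtain ⟨S, hS⟩ := Cmp.any ys _ h1
  refine ⟨S, ?_⟩
  have e : (fun x : I → Bool => ys.any fun y => (univ.filter fun i => y i = true).toList.all fun i =>
      bit x (.inl i)) = g := by
    funext x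
    rw [Bool.eq_iff_iff, List.any_eq_true]
    constructor
    · rintro ⟨y, hy, h⟩
      rw [List.all_eq_true] at h
      have hy' : g y = true := by simpa [ys] using hy
      refine hg y x (fun i hi => ?_) hy'
      exact h i (by simpa using hi)
    · intro h
      refine ⟨x, by simpa [ys] using h, ?_⟩
      rw [List.all_eq_true]
      intro i hi
      simpa [bit] using hi
  rw [e] at hS
  exact hS

/-- `A j`: a one of `f` after `j` drops is below `x`; `B j`: a zero after `j + 1` drops is below -/
def AB (f : (I → Bool) → Bool) : ℕ → ((I → Bool) → Prop) × ((I → Bool) → Prop)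
  | 0 => (fun x => ∃ y, (∀ i, y i = true → x i = true) ∧ f y = true,
      fun x => ∃ y, (∀ i, y i = true → x i = true) ∧ f y = false ∧
        ∃ z, (∀ i, z i = true → y i = true) ∧ f z = true)
  | j + 1 => (fun x => ∃ y, (∀ i, y i = true → x i = true) ∧ f y = true ∧ (AB f j).2 y,
      fun x => ∃ y, (∀ i, y i = true → x i = true) ∧ f y = false ∧
        ∃ z, (∀ i, z i = true → y i = true) ∧ f z = true ∧ (AB f j).2 z)

omit [Fintype I] [DecidableEq I] in
theorem AB_mono (f : (I → Bool) → Bool) (j : ℕ) (x y : I → Bool)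
    (hxy : ∀ i, x i = true → y i = true) :
    ((AB f j).1 x → (AB f j).1 y) ∧ ((AB f j).2 x → (AB f j).2 y) := by
  cases j with
  | zero =>
    exact ⟨fun ⟨z, h1, h2⟩ => ⟨z, fun i hi => hxy i (h1 i hi), h2⟩,
      fun ⟨z, h1, h2⟩ => ⟨z, fun i hi => hxy i (h1 i hi), h2⟩⟩
  | succ j =>
    exact ⟨fun ⟨z, h1, h2⟩ => ⟨z, fun i hi => hxy i (h1 i hi), h2⟩,
      fun ⟨z, h1, h2⟩ => ⟨z, fun i hi => hxy i (h1 i hi), h2⟩⟩

omit [Fintype I] [DecidableEq I] in
theorem AB_two (f : (I → Bool) → Bool) (j : ℕ) (x : I → Bool) :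
    (AB f j).2 x ↔ ∃ y, (∀ i, y i = true → x i = true) ∧ f y = false ∧ (AB f j).1 y := by
  cases j <;> rfl

/-- append one element to a chain -/
def app (X : ℕ → I → Bool) (k : ℕ) (y : I → Bool) : ℕ → I → Bool := fun i =>
  if i ≤ k then X i else y

omit [Fintype I] [DecidableEq I] in
theorem chain_app (X : ℕ → I → Bool) (hX : Chain X) (k : ℕ) (y : I → Bool)
    (hy : ∀ i, X k i = true → y i = true) : Chain (app X k y) := by
  intro i e he
  by_cases h1 : i + 1 ≤ k
  · have e1 : app X k y i = X i := if_pos (by omega)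
    have e2 : app X k y (i + 1) = X (i + 1) := if_pos h1
    rw [e1] at he
    rw [e2]
    exact hX i e he
  · have e2 : app X k y (i + 1) = y := if_neg h1
    rw [e2]
    by_cases h2 : i ≤ k
    · have e1 : app X k y i = X i := if_pos h2
      have : i = k := by omega
      subst this
      rw [e1] at he
      exact hy e he
    · have e1 : app X k y i = y := if_neg h2
      rw [e1] at he
      exact he

omit [Fintype I] [DecidableEq I] in
theorem drops_app (f : (I → Bool) → Bool) (X : ℕ → I → Bool) (k : ℕ) (y : I → Bool) :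
    dropsAlong f (app X k y) (k + 1) = dropsAlong f X k +
      if f (X k) = true ∧ f y = false then 1 else 0 := by
  unfold dropsAlong
  rw [card_filter, card_filter, sum_range_succ]
  congr 1
  · apply sum_congr rfl
    intro i hi
    rw [mem_range] at hi
    have e1 : app X k y i = X i := if_pos (by omega)
    have e2 : app X k y (i + 1) = X (i + 1) := if_pos (by omega)
    rw [e1, e2]
  · have e1 : app X k y k = X k := if_pos le_rfl
    have e2 : app X k y (k + 1) = y := if_neg (by omega)
    rw [e1, e2]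

omit [Fintype I] [DecidableEq I] in
theorem AB_chain (f : (I → Bool) → Bool) (j : ℕ) :
    (∀ x, (AB f j).1 x → ∃ X k, Chain X ∧ (∀ i, X k i = true → x i = true) ∧ f (X k) = true ∧
      j ≤ dropsAlong f X k) ∧
    (∀ x, (AB f j).2 x → ∃ X k, Chain X ∧ (∀ i, X k i = true → x i = true) ∧ f (X k) = false ∧
      j + 1 ≤ dropsAlong f X k) := by
  have key : ∀ j, (∀ x, (AB f j).1 x → ∃ X k, Chain X ∧ (∀ i, X k i = true → x i = true) ∧
      f (X k) = true ∧ j ≤ dropsAlong f X k) →
      ∀ x, (AB f j).2 x → ∃ X k, Chain X ∧ (∀ i, X k i = true → x i = true) ∧ f (X k) = false ∧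
        j + 1 ≤ dropsAlong f X k := by
    intro j ih x hx
    rw [AB_two] at hx
    obtain ⟨y, hy1, hy2, hy3⟩ := hx
    obtain ⟨X, k, hX, h1, h2, h3⟩ := ih y hy3
    refine ⟨app X k y, k + 1, chain_app X hX k y h1, ?_, ?_, ?_⟩
    · intro i hi
      unfold app at hi
      rw [if_neg (by omega)] at hi
      exact hy1 i hi
    · unfold app
      rw [if_neg (by omega)]
      exact hy2
    · rw [drops_app, if_pos ⟨h2, hy2⟩]
      omega
  induction j with
  | zero =>
    have h0 : ∀ x, (AB f 0).1 x → ∃ X k, Chain X ∧ (∀ i, X k i = true → x i = true) ∧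
        f (X k) = true ∧ 0 ≤ dropsAlong f X k := by
      rintro x ⟨y, hy1, hy2⟩
      exact ⟨fun _ => y, 0, fun _ _ h => h, hy1, hy2, Nat.zero_le _⟩
    exact ⟨h0, key 0 h0⟩
  | succ j ih =>
    have h0 : ∀ x, (AB f (j + 1)).1 x → ∃ X k, Chain X ∧ (∀ i, X k i = true → x i = true) ∧
        f (X k) = true ∧ j + 1 ≤ dropsAlong f X k := by
      rintro x ⟨y, hy1, hy2, hy3⟩
      obtain ⟨X, k, hX, h1, h2, h3⟩ := ih.2 y hy3
      refine ⟨app X k y, k + 1, chain_app X hX k y h1, ?_, ?_, ?_⟩
      · intro i hi
        unfold app at hi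
        rw [if_neg (by omega)] at hi
        exact hy1 i hi
      · unfold app
        rw [if_neg (by omega)]
        exact hy2
      · rw [drops_app]
        omega
    exact ⟨h0, key (j + 1) h0⟩

/-- **The comparator form of Markov's theorem.** -/
theorem markov (f : (I → Bool) → Bool) (t : ℕ)
    (h : ∀ X : ℕ → I → Bool, Chain X → ∀ k, dropsAlong f X k ≤ t) :
    ∃ N : Circuit I, N.nest ≤ 1 ∧ negs N.gates ≤ t ∧ ∀ x, N.value x = f x := by
  classical
  have hB : ∀ x, ¬ (AB f t).2 x := by
    intro x hx
    obtain ⟨X, k, hX, -, -, h3⟩ := (AB_chain f t).2 x hx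
    have := h X hX k
    omega
  have hA : ∀ j, ∃ S, Cmp 0 S (fun x : I → Bool => decide ((AB f j).1 x)) := fun j =>
    cmp_monotone _ fun x y hxy hx => by
      rw [decide_eq_true_eq] at hx ⊢
      exact (AB_mono f j x y hxy).1 hx
  have hB' : ∀ j, ∃ S, Cmp 0 S (fun x : I → Bool => decide ((AB f j).2 x)) := fun j =>
    cmp_monotone _ fun x y hxy hx => by
      rw [decide_eq_true_eq] at hx ⊢
      exact (AB_mono f j x y hxy).2 hx
  have hC : ∀ p, ∃ S, CmpN 1 p S (fun x : I → Bool => (List.range p).any fun j =>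
      decide ((AB f j).1 x) && !decide ((AB f j).2 x)) := by
    intro p
    induction p with
    | zero =>
      have h1 := (cmp_label (I := I) (.inr false)).toN.mono (Nat.zero_le 1) le_rfl le_rfl
      exact ⟨1, by simpa [bit] using h1⟩
    | succ p ih =>
      obtain ⟨S, hS⟩ := ih
      obtain ⟨S1, hS1⟩ := hA p
      obtain ⟨S2, hS2⟩ := hB' p
      refine ⟨S + (S1 + S2), ?_⟩
      · have := hS.or ((hS1.toN.mono (Nat.zero_le 1) le_rfl le_rfl).and hS2.toN.not)
        simp only [zero_add] at this
        have e : (fun x : I → Bool => (List.range (p + 1)).any fun j =>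
            decide ((AB f j).1 x) && !decide ((AB f j).2 x)) = fun x =>
            ((List.range p).any fun j => decide ((AB f j).1 x) && !decide ((AB f j).2 x)) ||
            (decide ((AB f p).1 x) && !decide ((AB f p).2 x)) := by
          funext x
          rw [List.range_succ, List.any_append]
          simp
        rw [e]
        exact this
  obtain ⟨S, hS⟩ := hC t
  obtain ⟨S1, hS1⟩ := hA t
  obtain ⟨N, k0, k1, -, k3⟩ := hS.or (hS1.toN.mono (Nat.zero_le 1) le_rfl le_rfl)
  refine ⟨N, k0, k1, fun x => ?_⟩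
  rw [k3 x, Bool.eq_iff_iff]
  simp only [Bool.or_eq_true, List.any_eq_true, List.mem_range, Bool.and_eq_true,
    decide_eq_true_eq, Bool.not_eq_true', decide_eq_false_iff_not]
  have hle : ∀ j, (AB f j).1 x → ¬ (AB f j).2 x → f x = true := by
    intro j h1 h2
    by_contra hf
    rw [Bool.not_eq_true] at hf
    apply h2
    rw [AB_two]
    exact ⟨x, fun _ h => h, hf, h1⟩
  constructor
  · rintro (⟨j, -, h1, h2⟩ | h1)
    · exact hle j h1 h2
    · exact hle t h1 (hB x)
  · intro hf
    have hex : ∃ j, ¬ (AB f j).2 x := ⟨t, hB x⟩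
    have hj := Nat.find_spec hex
    have hjt : Nat.find hex ≤ t := Nat.find_min' hex (hB x)
    have h1 : (AB f (Nat.find hex)).1 x := by
      rcases hjj : Nat.find hex with _ | j
      · exact ⟨x, fun _ h => h, hf⟩
      · have h2 := Nat.find_min hex (m := j) (by omega)
        rw [not_not] at h2
        exact ⟨x, fun _ h => h, hf, h2⟩
    rcases Nat.lt_or_ge (Nat.find hex) t with h2 | h2
    · exact Or.inl ⟨_, h2, h1, hj⟩
    · right
      have : Nat.find hex = t := by omega
      rw [this] at h1
      exact h1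

end

end Pool.Agent.L5helper35.CN
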