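import Pool.Agent.L5helper35.CN.Chain

/-!
# Nesting of NOT gates; changes along a chain: at most (number of NOT gates) * (nesting)
-/

namespace Pool.Agent.L5helper35.CN

open Finset

section

variable {W : Type} [DecidableEq W]

theorem nesting_zero (G : List (Gate W)) (hG : negs G = 0) : ∀ d, nesting G d = 0 := by
  induction G with
  | nil => intro d; rfl
  | cons g G ih =>
    intro d
    cases g with
    | cmp a b => exact ih hG _
    | neg a => simp [negs] at hG

theorem nesting_pos (G : List (Gate W)) (hG : negs G ≠ 0) : ∀ d, 1 ≤ nesting G d := by
  induction G with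
  | nil => simp [negs] at hG
  | cons g G ih =>
    intro d
    cases g with
    | cmp a b => exact ih hG _
    | neg a =>
      simp only [nesting]
      omega

theorem nesting_le_negs (G : List (Gate W)) : ∀ (d : W → ℕ) (k : ℕ), (∀ w, d w ≤ k) →
    nesting G d ≤ k + negs G := by
  induction G with
  | nil => intro d k _; simp [nesting]
  | cons g G ih =>
    intro d k hd
    cases g with
    | cmp a b =>
      refine ih _ k fun w => ?_
      have ha := hd a
      have hb := hd b
      have hw := hd w
      simp only [dstep]
      split_ifs <;> omega
    | neg a =>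
      have h := ih (dstep (.neg a) d) (k + 1) fun w => by
        have ha := hd a
        have hw := hd w
        simp only [dstep]
        split_ifs <;> omega
      have ha := hd a
      simp only [nesting, negs]
      omega

end

section

variable {W : Type} [Fintype W] [DecidableEq W]

/-- the number of drops, weighted -/
def wdrops (c : W → ℕ) (v v' : W → Bool) : ℕ := ∑ w, dn (v w) (v' w) * c w

theorem wdrops_cmp (a b : W) (v v' : W → Bool) (d : W → ℕ) (r : ℕ) :
    wdrops (fun w => r - dstep (.cmp a b) d w) (step (.cmp a b) v) (step (.cmp a b) v') ≤
      wdrops (fun w => r - d w) v v' := by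
  by_cases hab : a = b
  · subst hab
    rw [step_cmp_self, step_cmp_self]
    unfold wdrops
    apply sum_le_sum
    intro w _
    apply Nat.mul_le_mul_left
    simp only [dstep]
    by_cases h : w = a
    · subst h; simp
    · simp [h]
  · have hba : b ≠ a := fun h => hab h.symm
    unfold wdrops
    have hm : b ∈ univ.erase a := mem_erase.2 ⟨hba, mem_univ _⟩
    rw [← add_sum_erase univ _ (mem_univ a), ← add_sum_erase univ _ (mem_univ a),
      ← add_sum_erase (univ.erase a) _ hm, ← add_sum_erase (univ.erase a) _ hm]
    have e : ∑ w ∈ (univ.erase a).erase b, dn (step (.cmp a b) v w) (step (.cmp a b) v' w) *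
        (r - dstep (.cmp a b) d w) = ∑ w ∈ (univ.erase a).erase b, dn (v w) (v' w) * (r - d w) := by
      apply sum_congr rfl
      intro w hw
      rw [mem_erase, mem_erase] at hw
      simp [step, dstep, hw.1, hw.2.1]
    have key : ∀ x y x' y' : Bool, dn (x && y) (x' && y') + dn (x || y) (x' || y') ≤
        dn x x' + dn y y' := by decide
    have h1 := key (v a) (v b) (v' a) (v' b)
    rw [e]
    have e1 : step (.cmp a b) v a = (v a && v b) := by simp [step]
    have e2 : step (.cmp a b) v' a = (v' a && v' b) := by simp [step]
    have e3 : step (.cmp a b) v b = (v a || v b) := by simp [step, hba]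
    have e4 : step (.cmp a b) v' b = (v' a || v' b) := by simp [step, hba]
    have e5 : dstep (.cmp a b) d a = max (d a) (d b) := by simp [dstep]
    have e6 : dstep (.cmp a b) d b = max (d a) (d b) := by simp [dstep]
    dsimp only
    rw [e1, e2, e3, e4, e5, e6]
    set c := r - max (d a) (d b) with hc
    have hca : c ≤ r - d a := by omega
    have hcb : c ≤ r - d b := by omega
    have h2 : dn (v a && v b) (v' a && v' b) * c + dn (v a || v b) (v' a || v' b) * c ≤
        dn (v a) (v' a) * (r - d a) + dn (v b) (v' b) * (r - d b) := by
      calc dn (v a && v b) (v' a && v' b) * c + dn (v a || v b) (v' a || v' b) * c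
          = (dn (v a && v b) (v' a && v' b) + dn (v a || v b) (v' a || v' b)) * c := by ring
        _ ≤ (dn (v a) (v' a) + dn (v b) (v' b)) * c := Nat.mul_le_mul_right _ h1
        _ = dn (v a) (v' a) * c + dn (v b) (v' b) * c := by ring
        _ ≤ _ := Nat.add_le_add (Nat.mul_le_mul_left _ hca) (Nat.mul_le_mul_left _ hcb)
    omega

theorem wdrops_neg (a : W) (v v' : W → Bool) (d : W → ℕ) (r : ℕ) :
    wdrops (fun w => r - dstep (.neg a) d w) (step (.neg a) v) (step (.neg a) v') +
      dn (v a) (v' a) * (r - d a) = wdrops (fun w => r - d w) v v' +
      dn (v' a) (v a) * (r - (d a + 1)) := by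
  unfold wdrops
  rw [← add_sum_erase univ _ (mem_univ a), ← add_sum_erase univ _ (mem_univ a)]
  have e : ∑ w ∈ univ.erase a, dn (step (.neg a) v w) (step (.neg a) v' w) *
      (r - dstep (.neg a) d w) = ∑ w ∈ univ.erase a, dn (v w) (v' w) * (r - d w) := by
    apply sum_congr rfl
    intro w hw
    rw [mem_erase] at hw
    simp [step, dstep, hw.1]
  rw [e]
  have e1 : step (.neg a) v a = !v a := by simp [step]
  have e2 : step (.neg a) v' a = !v' a := by simp [step]
  have e3 : dstep (.neg a) d a = d a + 1 := by simp [dstep]
  dsimp only
  rw [e1, e2, e3]
  have key : ∀ x x' : Bool, dn (!x) (!x') = dn x' x := by decide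
  rw [key]
  omega

/-- **Changes at the NOT gates along a chain.** -/
theorem nest_count (G : List (Gate W)) : ∀ (L r : ℕ) (d : W → ℕ) (X : ℕ → W → Bool) (B : Finset ℕ),
    nesting G d ≤ r →
    (∀ i, i ∉ B → ∀ w, X i w = true → X (i + 1) w = true) →
    ((range L).filter fun i => i ∉ B ∧ trace G (X i) ≠ trace G (X (i + 1))).card ≤
      ∑ i ∈ range L, wdrops (fun w => r - d w) (X i) (X (i + 1)) + r * negs G := by
  classical
  induction G with
  | nil =>
    intro L r d X B _ _
    simp [trace]
  | cons g G ih =>
    intro L r d X B hr hB
    cases g with
    | cmp a b =>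
      have h1 := ih L r (dstep (.cmp a b) d) (fun i => step (.cmp a b) (X i)) B hr (by
        intro i hi w
        have ha := hB i hi a
        have hb := hB i hi b
        simp only [step]
        split_ifs
        · rw [Bool.and_eq_true, Bool.and_eq_true]
          exact fun h => ⟨ha h.1, hb h.2⟩
        · rw [Bool.or_eq_true, Bool.or_eq_true]
          exact fun h => h.imp ha hb
        · exact hB i hi w)
      refine h1.trans (Nat.add_le_add_right ?_ _)
      exact sum_le_sum fun i _ => wdrops_cmp a b (X i) (X (i + 1)) d r
    | neg a =>
      simp only [nesting] at hr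
      have hra : d a + 1 ≤ r := (le_max_left _ _).trans hr
      have hrG : nesting G (dstep (.neg a) d) ≤ r := (le_max_right _ _).trans hr
      let B' : Finset ℕ := B ∪ (range L).filter fun i => X i a ≠ X (i + 1) a
      -- steps outside of the range are ignored
      let X' : ℕ → W → Bool := fun i => step (.neg a) (X (min i L))
      have hB' : ∀ i, i ∉ B' → ∀ w, X' i w = true → X' (i + 1) w = true := by
        intro i hi w
        by_cases hiL : i < L
        · have hiB : i ∉ B := fun h => hi (mem_union_left _ h)
          have hia : X i a = X (i + 1) a := by
            by_contra hcon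
            exact hi (mem_union_right _ (mem_filter.2 ⟨mem_range.2 hiL, hcon⟩))
          have e1 : min i L = i := by omega
          have e2 : min (i + 1) L = i + 1 := by omega
          simp only [X', e1, e2, step]
          split_ifs
          · rw [hia]; exact id
          · exact hB i hiB w
        · have e1 : min i L = L := by omega
          have e2 : min (i + 1) L = L := by omega
          simp only [X', e1, e2]
          exact id
      have h1 := ih L r (dstep (.neg a) d) X' B' hrG hB'
      have hX' : ∀ i ∈ range L, X' i = step (.neg a) (X i) ∧ X' (i + 1) = step (.neg a) (X (i + 1)) := by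
        intro i hi
        rw [mem_range] at hi
        have e1 : min i L = i := by omega
        have e2 : min (i + 1) L = i + 1 := by omega
        simp only [X', e1, e2, and_self]
      have h2 : ∑ i ∈ range L, wdrops (fun w => r - dstep (.neg a) d w) (X' i) (X' (i + 1)) =
          ∑ i ∈ range L, wdrops (fun w => r - dstep (.neg a) d w) (step (.neg a) (X i))
            (step (.neg a) (X (i + 1))) := by
        apply sum_congr rfl
        intro i hi
        rw [(hX' i hi).1, (hX' i hi).2]
      have h3 : ∑ i ∈ range L, wdrops (fun w => r - dstep (.neg a) d w) (step (.neg a) (X i))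
            (step (.neg a) (X (i + 1))) + (∑ i ∈ range L, dn (X i a) (X (i + 1) a)) * (r - d a) =
          ∑ i ∈ range L, wdrops (fun w => r - d w) (X i) (X (i + 1)) +
            (∑ i ∈ range L, dn (X (i + 1) a) (X i a)) * (r - (d a + 1)) := by
        rw [sum_mul, sum_mul, ← sum_add_distrib, ← sum_add_distrib]
        exact sum_congr rfl fun i _ => wdrops_neg a (X i) (X (i + 1)) d r
      have hu := ups_downs (fun i => X i a) L
      set p := ∑ i ∈ range L, dn (X (i + 1) a) (X i a) with hp
      set q := ∑ i ∈ range L, dn (X i a) (X (i + 1) a) with hq
      have hpq : p ≤ q + 1 := by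
        split_ifs at hu <;> omega
      -- the steps which change at this gate
      have h4 : ((range L).filter fun i => i ∉ B ∧ trace (.neg a :: G) (X i) ≠
          trace (.neg a :: G) (X (i + 1))).card ≤ p +
          ((range L).filter fun i => i ∉ B' ∧ trace G (X' i) ≠ trace G (X' (i + 1))).card := by
        have h5 : ((range L).filter fun i => i ∉ B ∧ X i a ≠ X (i + 1) a).card ≤ p := by
          rw [card_filter, hp]
          apply sum_le_sum
          intro i _
          split_ifs with h
          · have h6 := hB i h.1 a
            unfold dn
            cases h7 : X i a with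
            | true =>
              rw [h7, h6 h7] at h
              exact absurd rfl h.2
            | false =>
              rw [h7] at h
              have h8 : X (i + 1) a = true := by
                by_contra hcon
                rw [Bool.not_eq_true] at hcon
                exact h.2 hcon.symm
              rw [h8]
              simp
          · exact Nat.zero_le _
        refine le_trans ?_ (Nat.add_le_add_right h5 _)
        refine (card_le_card ?_).trans (card_union_le _ _)
        intro i hi
        rw [mem_filter] at hi
        obtain ⟨hi1, hi2, hi3⟩ := hi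
        rw [mem_union, mem_filter, mem_filter]
        by_cases hia : X i a = X (i + 1) a
        · right
          refine ⟨hi1, ?_, ?_⟩
          · intro h
            rcases mem_union.1 h with h | h
            · exact hi2 h
            · exact (mem_filter.1 h).2 hia
          · rw [(hX' i hi1).1, (hX' i hi1).2]
            intro h
            apply hi3
            simp only [trace]
            rw [h, hia]
        · exact Or.inl ⟨hi1, hi2, hia⟩
      rw [h2] at h1
      obtain ⟨e, he⟩ : ∃ e, r - d a = e + 1 := ⟨r - d a - 1, by omega⟩
      have he' : r - (d a + 1) = e := by omega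
      rw [he, he'] at h3
      have h9 : r * negs (.neg a :: G) = r * negs G + r := by
        simp only [negs]
        ring
      rw [h9]
      have h10 : e + 1 ≤ r := by omega
      have h11 : p * (e + 1) ≤ q * (e + 1) + r := by
        calc p * (e + 1) ≤ (q + 1) * (e + 1) := Nat.mul_le_mul_right _ hpq
          _ = q * (e + 1) + (e + 1) := by ring
          _ ≤ _ := Nat.add_le_add_left h10 _
      have h12 : p * (e + 1) = p * e + p := by ring
      omega

/-- chains of inputs: at most `t * r` changes -/
theorem chain_nest (G : List (Gate W)) (X : ℕ → W → Bool)
    (hX : ∀ i w, X i w = true → X (i + 1) w = true) (L : ℕ) :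
    ((range L).filter fun i => trace G (X i) ≠ trace G (X (i + 1))).card ≤
      nesting G (fun _ => 0) * negs G := by
  have h1 := nest_count G L (nesting G fun _ => 0) (fun _ => 0) X ∅ le_rfl (fun i _ => hX i)
  have h2 : ∑ i ∈ range L, wdrops (fun w => nesting G (fun _ => 0) - (fun _ => 0) w) (X i)
      (X (i + 1)) = 0 := by
    apply sum_eq_zero
    intro i _
    unfold wdrops
    apply sum_eq_zero
    intro w _
    have : dn (X i w) (X (i + 1) w) = 0 := by
      unfold dn
      rw [if_neg]
      rintro ⟨h3, h4⟩
      rw [hX i w h3] at h4
      exact absurd h4 (by simp)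
    rw [this, zero_mul]
  rw [h2, zero_add] at h1
  simpa using h1

end

end Pool.Agent.L5helper35.CN
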