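import Pool.Agent.L5helper35.CN.Calc

/-!
# NOT gates can be moved to the inputs (two wires for each bit)
-/

namespace Pool.Agent.L5helper35.CN

open Finset

section

variable {W : Type} [DecidableEq W]

/-- the gates on the doubled wires; `σ w` tells which of the two wires carries the bit of `w` -/
def rail (σ : W → Bool) : List (Gate W) → List (Gate (W × Bool))
  | [] => []
  | .cmp a b :: G => if a = b then rail σ G else
      .cmp (a, σ a) (b, σ b) :: .cmp (b, !σ b) (a, !σ a) :: rail σ G
  | .neg a :: G => rail (fun w => if w = a then !σ a else σ w) G

/-- the wires which carry the bits at the end -/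
def pol (σ : W → Bool) : List (Gate W) → W → Bool
  | [] => σ
  | .cmp _ _ :: G => pol σ G
  | .neg a :: G => pol (fun w => if w = a then !σ a else σ w) G

theorem negs_rail (G : List (Gate W)) : ∀ σ : W → Bool, negs (rail σ G) = 0 := by
  induction G with
  | nil => intro σ; rfl
  | cons g G ih =>
    intro σ
    cases g with
    | cmp a b =>
      simp only [rail]
      split_ifs
      · exact ih σ
      · simp only [negs]
        exact ih σ
    | neg a => exact ih _

theorem run_rail (G : List (Gate W)) : ∀ (σ : W → Bool) (v : W → Bool) (u : W × Bool → Bool),
    (∀ w, u (w, σ w) = v w ∧ u (w, !σ w) = !v w) →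
    ∀ w, run (rail σ G) u (w, pol σ G w) = run G v w := by
  induction G with
  | nil => intro σ v u h w; exact (h w).1
  | cons g G ih =>
    intro σ v u h w
    cases g with
    | cmp a b =>
      simp only [rail, pol]
      by_cases hab : a = b
      · subst hab
        rw [if_pos rfl]
        simp only [run]
        apply ih
        intro w
        have : step (.cmp a a) v = v := by
          funext w
          simp only [step]
          by_cases h : w = a
          · subst h; simp
          · simp [h]
        rw [this]
        exact h w
      · rw [if_neg hab]
        simp only [run]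
        apply ih
        intro w
        have hba : b ≠ a := fun h => hab h.symm
        obtain ⟨a1, a2⟩ := h a
        obtain ⟨b1, b2⟩ := h b
        obtain ⟨w1, w2⟩ := h w
        by_cases hwa : w = a
        · subst hwa
          have n1 : (w, σ w) ≠ (w, !σ w) := by simp
          have n2 : (w, σ w) ≠ (b, !σ b) := fun h => hab (congrArg Prod.fst h)
          have n3 : (w, !σ w) ≠ (b, !σ b) := fun h => hab (congrArg Prod.fst h)
          have n4 : (w, !σ w) ≠ (b, σ b) := fun h => hab (congrArg Prod.fst h)
          have n5 : (b, !σ b) ≠ (w, σ w) := fun h => n2 h.symm
          have n6 : (b, !σ b) ≠ (b, σ b) := by simp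
          constructor
          · simp [step, n1, n2, a1, b1]
          · simp [step, n1.symm, n3, n4, n5, n6, a2, b2]
            cases v w <;> cases v b <;> rfl
        · by_cases hwb : w = b
          · subst hwb
            have n2 : (w, σ w) ≠ (a, !σ a) := fun h => hba (congrArg Prod.fst h)
            have n3 : (w, σ w) ≠ (a, σ a) := fun h => hba (congrArg Prod.fst h)
            have n4 : (a, !σ a) ≠ (a, σ a) := by simp
            have n5 : (a, !σ a) ≠ (w, σ w) := fun h => n2 h.symm
            have n6 : (w, !σ w) ≠ (w, σ w) := by simp
            have n7 : (w, !σ w) ≠ (a, σ a) := fun h => hba (congrArg Prod.fst h)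
            constructor
            · simp [step, n2, n3, a1, b1, hba]
            · simp [step, n4, n5, n6, n7, a2, b2, hab, hwa]
              cases v a <;> cases v w <;> rfl
          · have n1 : ∀ x y : Bool, (w, x) ≠ (a, y) := fun x y h => hwa (congrArg Prod.fst h)
            have n2 : ∀ x y : Bool, (w, x) ≠ (b, y) := fun x y h => hwb (congrArg Prod.fst h)
            constructor
            · simp [step, n1, n2, hwa, hwb, w1]
            · simp [step, n1, n2, hwa, hwb, w2]
    | neg a =>
      simp only [rail, pol, run]
      apply ih
      intro w
      by_cases hwa : w = a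
      · subst hwa
        obtain ⟨w1, w2⟩ := h w
        simp [step, w1, w2]
      · simp [step, hwa, h w]

end

/-- Every circuit is equivalent to a circuit without NOT gates with negated inputs. -/
theorem exists_rail {I : Type} (N : Circuit I) : ∃ (G : List (Gate (Fin N.wires × Bool)))
    (o : Fin N.wires × Bool), negs G = 0 ∧ ∀ x, N.value x =
      run G (fun p => if p.2 then bit x (N.label p.1) else !bit x (N.label p.1)) o := by
  refine ⟨rail (fun _ => true) N.gates, (N.out, pol (fun _ => true) N.gates N.out), negs_rail _ _,
    fun x => ?_⟩
  unfold Circuit.value
  rw [run_rail N.gates (fun _ => true) (fun w => bit x (N.label w))]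
  intro w
  simp

end Pool.Agent.L5helper35.CN
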